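import Pool.Agent.H62.LR.Dyn
import Pool.Agent.H41.LR.MainI

/-!
# LR End: the one-variable part of the project LOG-R

`mainN`, `mainI`: the statements of helper46's interface file, from `output` (the members of the families are finitely many periodic functions and their restrictions) and helper41's reductions.
-/

set_option autoImplicit false

noncomputable section

namespace Pool.Agent.H62.LR

open Pool.Agent.H46.LR

theorem mainN : MainN :=
  Pool.Agent.H41.LR.mainN_of fun _ _ _ _ _ _ h hNI => output h hNI

theorem mainI : MainI :=
  Pool.Agent.H41.LR.mainI_of fun _ _ _ _ _ _ h hNI => output h hNI

end Pool.Agent.H62.LR
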