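import Pool.Agent.H92.GGL.SchwarzDisc
import Pool.Agent.H24.AnalyticGrowth
import Pool.Agent.EG.LE.Har

/-!
# LR Landau: holomorphic functions on a disc which omit `0` and `1`

* `landau`, `local_bound`, `harnack3`.
-/

set_option autoImplicit false

open Topology Filter Metric

noncomputable section

namespace Pool.Agent.H62.LR

open Pool.Agent.H92.GGL (wt powVar powSum schwarz_disc)
open Pool.Agent.H17 (wVar)

/-- the functions `1, X, X - 1` -/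
private def rr (X : ℂ → ℂ) : Fin 3 → ℂ → ℂ := ![fun _ => 1, X, fun z => X z - 1]

private def bb : Fin 3 → ℝ := ![0, 3 / 2, 3 / 2]

private theorem rpow_half {x : ℝ} : x ^ (1 / 2 : ℝ) = Real.sqrt x := by
  rw [Real.sqrt_eq_rpow]

private theorem rpow_neg_three_half {x : ℝ} (hx : 0 ≤ x) : x ^ (-(3 / 2) : ℝ) = (Real.sqrt x ^ 3)⁻¹ := by
  rw [Real.rpow_neg hx]
  congr 1
  rw [Real.sqrt_eq_rpow, ← Real.rpow_natCast, ← Real.rpow_mul hx]
  norm_num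

private theorem wt_eq (X : ℂ → ℂ) (z : ℂ) :
    wt (1 / 2) 1 bb (rr X) (deriv X) z = ‖deriv X z‖ ^ 2 * (1 + Real.sqrt ‖X z‖ + Real.sqrt ‖X z - 1‖) *
      ((Real.sqrt ‖X z‖ ^ 3)⁻¹ * (Real.sqrt ‖X z - 1‖ ^ 3)⁻¹) := by
  unfold wt powSum
  rw [Real.rpow_one, Fin.sum_univ_three, Fin.prod_univ_three]
  simp only [rr, bb, Matrix.cons_val_zero, Matrix.cons_val_one, Matrix.cons_val]
  rw [norm_one, Real.one_rpow, rpow_half, rpow_half, neg_zero, Real.one_rpow, one_mul, rpow_neg_three_half (norm_nonneg _),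
    rpow_neg_three_half (norm_nonneg _)]

private theorem pv_eq {X : ℂ → ℂ} {z : ℂ} (h0 : X z ≠ 0) (h1 : X z ≠ 1) :
    powVar (1 / 2) (rr X) z = ‖deriv X z‖ ^ 2 * (1 + Real.sqrt ‖X z‖ ^ 3 + Real.sqrt ‖X z - 1‖ ^ 3) *
      ((Real.sqrt ‖X z‖ ^ 3)⁻¹ * (Real.sqrt ‖X z - 1‖ ^ 3)⁻¹) / (1 + Real.sqrt ‖X z‖ + Real.sqrt ‖X z - 1‖) ^ 2 := by
  unfold powVar wVar
  have hd : deriv (fun z => X z - 1) z = deriv X z := by
    rw [deriv_sub_const]
  have hd1 : deriv (fun _ : ℂ => (1 : ℂ)) z = 0 := deriv_const _ _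
  rw [Fin.sum_univ_three, Fin.sum_univ_three, Fin.sum_univ_three]
  simp only [rr, Matrix.cons_val_zero, Matrix.cons_val_one, Matrix.cons_val]
  rw [norm_one, Real.one_rpow, rpow_half, rpow_half, hd, hd1, zero_div, norm_zero, mul_zero]
  set s := Real.sqrt ‖X z‖ with hs
  set t := Real.sqrt ‖X z - 1‖ with ht
  have hs0 : 0 < s := Real.sqrt_pos.2 (norm_pos_iff.2 h0)
  have ht0 : 0 < t := Real.sqrt_pos.2 (norm_pos_iff.2 (sub_ne_zero.2 h1))
  have hs2 : ‖X z‖ = s ^ 2 := (Real.sq_sqrt (norm_nonneg _)).symm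
  have ht2 : ‖X z - 1‖ = t ^ 2 := (Real.sq_sqrt (norm_nonneg _)).symm
  -- the identity of Lagrange
  have key : ∀ (u v : ℝ) (a b : ℂ), ((1 * 0 ^ 2 + u * ‖a‖ ^ 2 + v * ‖b‖ ^ 2) * (1 + u + v) - ‖(0 : ℂ) + (u : ℂ) * a + (v : ℂ) * b‖ ^ 2 : ℝ) =
      u * ‖a‖ ^ 2 + v * ‖b‖ ^ 2 + u * v * ‖a - b‖ ^ 2 := by
    intro u v a b
    rw [zero_add]
    simp only [Complex.sq_norm, Complex.normSq_apply, Complex.add_re, Complex.add_im, Complex.mul_re, Complex.mul_im, Complex.sub_re, Complex.sub_im,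
      Complex.ofReal_re, Complex.ofReal_im]
    ring
  have hab : deriv X z / X z - deriv X z / (X z - 1) = -(deriv X z / (X z * (X z - 1))) := by
    have h1' : X z - 1 ≠ 0 := sub_ne_zero.2 h1
    field_simp
    ring
  have h2 := key s t (deriv X z / X z) (deriv X z / (X z - 1))
  have h3 : ((1 : ℝ) * 0 ^ 2 + s * ‖deriv X z / X z‖ ^ 2 + t * ‖deriv X z / (X z - 1)‖ ^ 2) * (1 + s + t) -
      ‖(0 : ℂ) + (s : ℂ) * (deriv X z / X z) + (t : ℂ) * (deriv X z / (X z - 1))‖ ^ 2 =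
      ‖deriv X z‖ ^ 2 * (1 + s ^ 3 + t ^ 3) * ((s ^ 3)⁻¹ * (t ^ 3)⁻¹) := by
    rw [h2, hab, norm_neg, norm_div, norm_div, norm_div, norm_mul, hs2, ht2]
    field_simp
    ring
  rw [← h3]

private theorem cube_le {s t : ℝ} (hs : 0 ≤ s) (ht : 0 ≤ t) : (1 + s + t) ^ 3 ≤ 9 * (1 + s ^ 3 + t ^ 3) := by
  have h1 : 0 ≤ (s + t) * (s - t) ^ 2 := by positivity
  have h2 : 0 ≤ (1 + t) * (1 - t) ^ 2 := by positivity
  have h3 : 0 ≤ (1 + s) * (1 - s) ^ 2 := by positivity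
  nlinarith [mul_nonneg hs ht, mul_nonneg (mul_nonneg hs ht) (show (0 : ℝ) ≤ 1 by norm_num), sq_nonneg (s - 1), sq_nonneg (t - 1), sq_nonneg (s - t),
    mul_nonneg hs (sq_nonneg (t - 1)), mul_nonneg ht (sq_nonneg (s - 1)), mul_nonneg hs (sq_nonneg (s - t)), mul_nonneg ht (sq_nonneg (s - t)),
    sq_nonneg (s + t - 2)]

/-- The basic estimate. -/
theorem basic {X : ℂ → ℂ} {z : ℂ} {R : ℝ} (hR : 0 < R) (hX : DifferentiableOn ℂ X (ball z R)) (h01 : ∀ w ∈ ball z R, X w ≠ 0 ∧ X w ≠ 1) :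
    R ^ 2 * (‖deriv X z‖ ^ 2 * (1 + Real.sqrt ‖X z‖ + Real.sqrt ‖X z - 1‖)) ≤ 1152 * (Real.sqrt ‖X z‖ ^ 3 * Real.sqrt ‖X z - 1‖ ^ 3) := by
  have hsub : ∀ w : ℂ, ‖w - z‖ ≤ R / 2 → w ∈ ball z R := by
    intro w hw
    rw [mem_ball, dist_eq_norm]
    linarith
  have han : ∀ w : ℂ, ‖w - z‖ ≤ R / 2 → AnalyticAt ℂ X w := fun w hw => hX.analyticAt (isOpen_ball.mem_nhds (hsub w hw))
  have key := schwarz_disc (r := rr X) (g := deriv X) (κ := 1 / 2) (α := 1) (β := bb) (ρ := 1) (by norm_num) one_pos one_pos (c := z) (R := R / 2)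
    (by positivity) (S := ∅) (Finset.notMem_empty _) (fun w hw _ i => ?_) (fun w hw _ => (han w hw).deriv) (C := 9) (by norm_num) (fun w hw _ => ?_)
    (fun s _ hs => absurd hs (Finset.notMem_empty _))
  · rw [wt_eq] at key
    have h0 := (h01 z (mem_ball_self hR)).1
    have h1 := (h01 z (mem_ball_self hR)).2
    set s := Real.sqrt ‖X z‖ with hs
    set t := Real.sqrt ‖X z - 1‖ with ht
    have hs0 : 0 < s := Real.sqrt_pos.2 (norm_pos_iff.2 h0)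
    have ht0 : 0 < t := Real.sqrt_pos.2 (norm_pos_iff.2 (sub_ne_zero.2 h1))
    have h3 : ‖deriv X z‖ ^ 2 * (1 + s + t) * ((s ^ 3)⁻¹ * (t ^ 3)⁻¹) * (R / 2) ^ (2 * 1) =
        (R ^ 2 * (‖deriv X z‖ ^ 2 * (1 + s + t))) / (4 * (s ^ 3 * t ^ 3)) := by
      field_simp
      ring
    rw [h3, div_le_iff₀ (by positivity)] at key
    refine key.trans (le_of_eq ?_)
    norm_num
    ring
  · fin_cases i
    · exact ⟨analyticAt_const, one_ne_zero⟩
    · exact ⟨han w hw, (h01 w (hsub w hw)).1⟩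
    · exact ⟨(han w hw).sub analyticAt_const, sub_ne_zero.2 (h01 w (hsub w hw)).2⟩
  · have h0 := (h01 w (hsub w hw)).1
    have h1 := (h01 w (hsub w hw)).2
    rw [wt_eq, pv_eq h0 h1, pow_one]
    set s := Real.sqrt ‖X w‖ with hs
    set t := Real.sqrt ‖X w - 1‖ with ht
    have hs0 : 0 < s := Real.sqrt_pos.2 (norm_pos_iff.2 h0)
    have ht0 : 0 < t := Real.sqrt_pos.2 (norm_pos_iff.2 (sub_ne_zero.2 h1))
    have hc := cube_le hs0.le ht0.le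
    rw [← mul_div_assoc, le_div_iff₀ (by positivity)]
    have h4 : 0 ≤ ‖deriv X w‖ ^ 2 * ((s ^ 3)⁻¹ * (t ^ 3)⁻¹) := by positivity
    calc ‖deriv X w‖ ^ 2 * (1 + s + t) * ((s ^ 3)⁻¹ * (t ^ 3)⁻¹) * (1 + s + t) ^ 2
        = ‖deriv X w‖ ^ 2 * ((s ^ 3)⁻¹ * (t ^ 3)⁻¹) * (1 + s + t) ^ 3 := by ring
      _ ≤ ‖deriv X w‖ ^ 2 * ((s ^ 3)⁻¹ * (t ^ 3)⁻¹) * (9 * (1 + s ^ 3 + t ^ 3)) := mul_le_mul_of_nonneg_left hc h4
      _ = 9 * (‖deriv X w‖ ^ 2 * (1 + s ^ 3 + t ^ 3) * ((s ^ 3)⁻¹ * (t ^ 3)⁻¹)) := by ring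

/-- Landau's theorem for the spherical derivative. -/
theorem landau48 {X : ℂ → ℂ} {z : ℂ} {R : ℝ} (hR : 0 < R) (hX : DifferentiableOn ℂ X (ball z R)) (h01 : ∀ w ∈ ball z R, X w ≠ 0 ∧ X w ≠ 1) :
    R * ‖deriv X z‖ ≤ 48 * (1 + ‖X z‖ ^ 2) := by
  have key := basic hR hX h01
  set s := Real.sqrt ‖X z‖ with hs
  set t := Real.sqrt ‖X z - 1‖ with ht
  have hs0 : 0 ≤ s := Real.sqrt_nonneg _
  have ht0 : 0 ≤ t := Real.sqrt_nonneg _
  have hs2 : ‖X z‖ = s ^ 2 := (Real.sq_sqrt (norm_nonneg _)).symm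
  have ht2 : t ^ 2 ≤ 1 + s ^ 2 := by
    rw [ht, Real.sq_sqrt (norm_nonneg _), ← hs2]
    have := norm_sub_le (X z) 1
    rw [norm_one] at this
    linarith
  have h1 : R ^ 2 * ‖deriv X z‖ ^ 2 ≤ 1152 * (s ^ 3 * t ^ 2) := by
    have h2 : 0 < 1 + s + t := by positivity
    have h3 : 1152 * (s ^ 3 * t ^ 3) ≤ 1152 * (s ^ 3 * t ^ 2) * (1 + s + t) := by
      have h4 : 0 ≤ 1152 * (s ^ 3 * t ^ 2) := by positivity
      nlinarith [mul_nonneg h4 hs0]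
    have h5 : R ^ 2 * ‖deriv X z‖ ^ 2 * (1 + s + t) ≤ 1152 * (s ^ 3 * t ^ 2) * (1 + s + t) := by
      calc R ^ 2 * ‖deriv X z‖ ^ 2 * (1 + s + t) = R ^ 2 * (‖deriv X z‖ ^ 2 * (1 + s + t)) := by ring
        _ ≤ _ := key.trans h3
    exact le_of_mul_le_mul_right h5 h2
  have h6 : R ^ 2 * ‖deriv X z‖ ^ 2 ≤ (48 * (1 + s ^ 4)) ^ 2 := by
    refine h1.trans ?_
    have h7 : s ^ 3 ≤ 1 + s ^ 4 := by nlinarith [sq_nonneg (s ^ 2 - s), sq_nonneg (s - 1), sq_nonneg (s + 1), sq_nonneg (s ^ 2 - 1), mul_nonneg hs0 hs0]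
    have h8 : t ^ 2 ≤ 2 * (1 + s ^ 4) := by nlinarith [sq_nonneg (s ^ 2 - 1)]
    have h9 : s ^ 3 * t ^ 2 ≤ (1 + s ^ 4) * (2 * (1 + s ^ 4)) := mul_le_mul h7 h8 (by positivity) (by positivity)
    nlinarith
  rw [hs2]
  have h10 : (R * ‖deriv X z‖) ^ 2 ≤ (48 * (1 + (s ^ 2) ^ 2)) ^ 2 := by
    have e1 : (s ^ 2) ^ 2 = s ^ 4 := by ring
    rw [mul_pow, e1]
    exact h6
  exact le_of_sq_le_sq h10 (by positivity)

theorem landau : ∃ C : ℝ, 0 < C ∧ ∀ (X : ℂ → ℂ) (z : ℂ) (R : ℝ), 0 < R → DifferentiableOn ℂ X (ball z R) → (∀ w ∈ ball z R, X w ≠ 0 ∧ X w ≠ 1) →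
    R * ‖deriv X z‖ ≤ C * (1 + ‖X z‖ ^ 2) :=
  ⟨48, by norm_num, fun _ _ _ hR hX h01 => landau48 hR hX h01⟩

/-- A function which is at most `a` at the centre, with small derivative where it is at most `b`, is at most `b`. -/
theorem stay {X : ℂ → ℂ} {z : ℂ} {r a b D : ℝ} (hX : DifferentiableOn ℂ X (ball z r)) (ha : ‖X z‖ ≤ a)
    (hD : ∀ w ∈ ball z r, ‖X w‖ ≤ b → ‖deriv X w‖ ≤ D) (hD0 : 0 ≤ D) (hab : D * r < b - a) : ∀ w ∈ ball z r, ‖X w‖ ≤ b := by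
  intro w hw
  have hr : 0 < r := by
    rw [mem_ball] at hw
    exact lt_of_le_of_lt dist_nonneg hw
  have hab' : a < b := by nlinarith
  have hwn : ‖w - z‖ < r := by rwa [mem_ball, dist_eq_norm] at hw
  have hγ : ∀ t ∈ Set.Icc (0 : ℝ) 1, z + (t : ℂ) * (w - z) ∈ ball z r := by
    intro t ht
    rw [mem_ball, dist_eq_norm, add_sub_cancel_left, norm_mul, Complex.norm_real, Real.norm_of_nonneg ht.1]
    calc t * ‖w - z‖ ≤ 1 * ‖w - z‖ := mul_le_mul_of_nonneg_right ht.2 (norm_nonneg _)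
      _ < r := by linarith
  have hd : ∀ t ∈ Set.Icc (0 : ℝ) 1, HasDerivAt (fun t : ℝ => X (z + (t : ℂ) * (w - z))) (deriv X (z + (t : ℂ) * (w - z)) * (w - z)) t := by
    intro t ht
    have h1 : HasDerivAt X (deriv X (z + (t : ℂ) * (w - z))) (z + (t : ℂ) * (w - z)) :=
      (hX.differentiableAt (isOpen_ball.mem_nhds (hγ t ht))).hasDerivAt
    have h2 : HasDerivAt (fun t : ℝ => z + (t : ℂ) * (w - z)) (w - z) t := by
      have h3 : HasDerivAt (fun s : ℝ => (s : ℂ)) 1 t := Complex.ofRealCLM.hasDerivAt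
      have h4 := (h3.mul_const (w - z)).const_add z
      rwa [one_mul] at h4
    exact h1.comp_of_eq t h2 rfl
  have key := image_norm_le_of_norm_deriv_right_lt_deriv_boundary (f := fun t : ℝ => X (z + (t : ℂ) * (w - z)))
    (f' := fun t : ℝ => deriv X (z + (t : ℂ) * (w - z)) * (w - z)) (a := 0) (b := 1)
    (fun t ht => (hd t ht).continuousAt.continuousWithinAt) (fun t ht => (hd t ⟨ht.1, ht.2.le⟩).hasDerivWithinAt)
    (B := fun t => a + (b - a) * t) (B' := fun _ => b - a) (by simpa using ha)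
    (fun t => by simpa using ((hasDerivAt_id t).const_mul (b - a)).const_add a) (fun t ht hB => ?_) (x := 1) ⟨zero_le_one, le_rfl⟩
  · simp only [Complex.ofReal_one, one_mul, add_sub_cancel, mul_one] at key
    exact key
  · have hB' : ‖X (z + (t : ℂ) * (w - z))‖ = a + (b - a) * t := hB
    have h1 : ‖X (z + (t : ℂ) * (w - z))‖ ≤ b := by
      rw [hB']
      nlinarith [ht.2]
    have h2 := hD _ (hγ t ⟨ht.1, ht.2.le⟩) h1
    rw [norm_mul]
    calc ‖deriv X (z + (t : ℂ) * (w - z))‖ * ‖w - z‖ ≤ D * r := mul_le_mul h2 hwn.le (norm_nonneg _) hD0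
      _ < b - a := hab

/-- the derivative at the points of the ball of half the radius -/
theorem landau_half {X : ℂ → ℂ} {z : ℂ} {R : ℝ} (hR : 0 < R) (hX : DifferentiableOn ℂ X (ball z R)) (h01 : ∀ w ∈ ball z R, X w ≠ 0 ∧ X w ≠ 1)
    {w : ℂ} (hw : w ∈ ball z (R / 2)) : ‖deriv X w‖ ≤ 96 / R * (1 + ‖X w‖ ^ 2) := by
  have hsub : ball w (R / 2) ⊆ ball z R := by
    refine ball_subset_ball' ?_
    rw [mem_ball] at hw
    linarith
  have h1 := landau48 (half_pos hR) (hX.mono hsub) fun u hu => h01 u (hsub hu)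
  rw [div_mul_eq_mul_div, le_div_iff₀ hR]
  linarith

/-- bounded at the centre: bounded on a smaller ball -/
theorem local_bound (M : ℝ) : ∃ c : ℝ, 0 < c ∧ c ≤ 1 ∧ ∀ (X : ℂ → ℂ) (z : ℂ) (R : ℝ), 0 < R → DifferentiableOn ℂ X (ball z R) →
    (∀ w ∈ ball z R, X w ≠ 0 ∧ X w ≠ 1) → ‖X z‖ ≤ M → ∀ w ∈ ball z (c * R), ‖X w‖ ≤ M + 1 := by
  set D : ℝ := 96 * (1 + (M + 1) ^ 2) with hD
  have hD1 : 96 ≤ D := by
    rw [hD]
    nlinarith [sq_nonneg (M + 1)]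
  refine ⟨1 / (2 * D), by positivity, ?_, fun X z R hR hX h01 hM => ?_⟩
  · rw [div_le_one (by positivity)]
    linarith
  have hc : 1 / (2 * D) * R ≤ R / 2 := by
    rw [div_mul_eq_mul_div, one_mul, div_le_div_iff₀ (by positivity) (by norm_num)]
    nlinarith
  have hsub : ball z (1 / (2 * D) * R) ⊆ ball z (R / 2) := ball_subset_ball hc
  have hsub' : ball z (1 / (2 * D) * R) ⊆ ball z R := ball_subset_ball (by linarith)
  have hM1 : 0 ≤ M + 1 := by linarith [norm_nonneg (X z)]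
  refine stay (a := M) (b := M + 1) (D := D / R) (hX.mono hsub') hM (fun w hw hwb => ?_) (by positivity) ?_
  · refine (landau_half hR hX h01 (hsub hw)).trans ?_
    have h1 : ‖X w‖ ^ 2 ≤ (M + 1) ^ 2 := pow_le_pow_left₀ (norm_nonneg _) hwb 2
    calc 96 / R * (1 + ‖X w‖ ^ 2) ≤ 96 / R * (1 + (M + 1) ^ 2) := by gcongr
      _ = D / R := by rw [hD]; ring
  · have h1 : D / R * (1 / (2 * D) * R) = 1 / 2 := by
      field_simp
    rw [h1]
    norm_num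

/-- small at the centre: small on a smaller ball -/
theorem harnack3 : ∃ c : ℝ, 0 < c ∧ c ≤ 1 ∧ ∀ (X : ℂ → ℂ) (z : ℂ) (R : ℝ), 0 < R → DifferentiableOn ℂ X (ball z R) →
    (∀ w ∈ ball z R, X w ≠ 0 ∧ X w ≠ 1) → ‖X z‖ ≤ 1 / 2 → ∀ w ∈ ball z (c * R), ‖X w‖ ^ 3 ≤ ‖X z‖ := by
  refine ⟨1 / 1600, by norm_num, by norm_num, fun X z R hR hX h01 hM w hw => ?_⟩
  have hr : 0 < R / 800 := by positivity
  have hsub : ball z (R / 800) ⊆ ball z (R / 2) := ball_subset_ball (by linarith)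
  have hsub' : ball z (R / 800) ⊆ ball z R := ball_subset_ball (by linarith)
  have h34 : ∀ w ∈ ball z (R / 800), ‖X w‖ ≤ 3 / 4 := by
    refine stay (a := 1 / 2) (b := 3 / 4) (D := 150 / R) (hX.mono hsub') hM (fun w hw hwb => ?_) (by positivity) ?_
    · refine (landau_half hR hX h01 (hsub hw)).trans ?_
      have h1 : ‖X w‖ ^ 2 ≤ (3 / 4) ^ 2 := pow_le_pow_left₀ (norm_nonneg _) hwb 2
      calc 96 / R * (1 + ‖X w‖ ^ 2) ≤ 96 / R * (1 + (3 / 4) ^ 2) := by gcongr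
        _ = 150 / R := by ring
    · have h1 : 150 / R * (R / 800) = 150 / 800 := by field_simp
      rw [h1]
      norm_num
  obtain ⟨G, hG, hGe⟩ := Pool.Agent.H24.Growth.exists_log isOpen_ball (convex_ball z (R / 800)) ⟨z, mem_ball_self hr⟩ (hX.mono hsub')
    fun w hw => (h01 w (hsub' hw)).1
  have hre : ∀ w ∈ ball z (R / 800), (-G w).re = -Real.log ‖X w‖ := by
    intro w hw
    rw [← hGe w hw, Complex.norm_exp, Real.log_exp, Complex.neg_re]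
  have hpos : ∀ w ∈ ball z (R / 800), 0 < (-G w).re := by
    intro w hw
    rw [hre w hw]
    have h2 : Real.log ‖X w‖ < 0 := Real.log_neg (norm_pos_iff.2 (h01 w (hsub' hw)).1) (by linarith [h34 w hw])
    linarith
  have hwn : ‖w - z‖ < R / 1600 := by
    rw [mem_ball, dist_eq_norm] at hw
    linarith
  have hw' : w ∈ ball z (R / 800) := by
    rw [mem_ball, dist_eq_norm]
    linarith
  have key := Pool.Agent.EG.LE.harnack (H := fun w => -G w) hr hG.neg hpos hw'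
  have hzb : z ∈ ball z (R / 800) := mem_ball_self hr
  have h3 : (1 / 3 : ℝ) ≤ (R / 800 - ‖w - z‖) / (R / 800 + ‖w - z‖) := by
    rw [le_div_iff₀ (by positivity)]
    linarith
  have h4 : -Real.log ‖X z‖ * (1 / 3) ≤ -Real.log ‖X w‖ := by
    rw [← hre z hzb, ← hre w hw']
    exact (mul_le_mul_of_nonneg_left h3 (hpos z hzb).le).trans key
  have hXz : 0 < ‖X z‖ := norm_pos_iff.2 (h01 z (mem_ball_self hR)).1
  have hXw : 0 < ‖X w‖ := norm_pos_iff.2 (h01 w (hsub' hw')).1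
  have h5 : Real.log (‖X w‖ ^ 3) ≤ Real.log ‖X z‖ := by
    rw [Real.log_pow]
    push_cast
    linarith
  exact (Real.log_le_log_iff (by positivity) hXz).1 h5

end Pool.Agent.H62.LR
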