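import Pool.Agent.H87.LU.HArm
import Pool.Agent.H7.Per.End

/-!
# LR Defs: functions which omit three or four sections (project LOG-R)

* `kp`, `kinf`: the model of the Riemann sphere in `MN 1`.
* `Tm B 𝓛 C A Ω`: the functions `f`, meromorphic on `Ω`, which outside the discrete set `B` are holomorphic and different from `0`, `1`, `L z` (`L ∈ 𝓛`), and which
  have values in `A ∪ {∞}` at the points of `C`.  There are two cases: (N) `𝓛 = {L}`, `C = ∅`, `L = 1` at a point of `B`; (I) `𝓛 = ∅`, `C = c + i p ℤ ⊆ B`, `A` finite.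
* `Sc`: the family of maps into the sphere, with the sections `∞, 0, 1, L`.
* `BaseD`: the properties of `B, 𝓛, C, A`.
-/

set_option autoImplicit false

open Topology Filter Metric

noncomputable section

namespace Pool.Agent.H62.LR

open Pool.Agent.H36.BP (EN)
open Pool.Agent.H62.EF (MN pr)
open Pool.Agent.H87.LU (Gd HP Sh HDyn AgO)

/-- the vector `(1, w)` -/
def v1 (w : ℂ) : EN 1 := WithLp.toLp 2 ![1, w]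

/-- the vector `(0, 1)` -/
def v0 : EN 1 := WithLp.toLp 2 ![0, 1]

/-- the point `w` of the sphere -/
def kp (w : ℂ) : MN 1 := pr (v1 w)

/-- the point `∞` of the sphere -/
def kinf : MN 1 := pr v0

/-- the functions which omit `0`, `1` and the functions in `𝓛` outside `B`, with values in `A ∪ {∞}` at the points of `C` -/
def Tm (B : Set ℂ) (𝓛 : Set (ℂ → ℂ)) (C A : Set ℂ) (Ω : Set ℂ) : Set (ℂ → ℂ) :=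
  {f | (∀ z ∈ Ω, MeromorphicAt f z) ∧ (∀ z ∈ Ω, z ∉ B → AnalyticAt ℂ f z ∧ f z ≠ 0 ∧ f z ≠ 1 ∧ ∀ L ∈ 𝓛, f z ≠ L z) ∧
    ∀ b ∈ Ω, b ∈ C → ∀ a : ℂ, Tendsto f (𝓝[≠] b) (𝓝 a) → a ∈ A}

/-- the sections -/
def Sec (𝓛 : Set (ℂ → ℂ)) : Set (ℂ → MN 1) :=
  {fun _ => kinf, fun _ => kp 0, fun _ => kp 1} ∪ (fun (L : ℂ → ℂ) (z : ℂ) => kp (L z)) '' 𝓛

/-- the family of maps into the sphere -/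
def Sc (B : Set ℂ) (𝓛 : Set (ℂ → ℂ)) (C A : Set ℂ) (Ω : Set ℂ) : Set (ℂ → MN 1) :=
  {y | (∃ s ∈ Sec 𝓛, ∀ z ∈ Ω, z ∉ B → y z = s z) ∨ ∃ f ∈ Tm B 𝓛 C A Ω, ∀ z ∈ Ω, z ∉ B → y z = kp (f z)}

/-- the hypotheses -/
structure BaseD (p : ℝ) (B : Set ℂ) (δ W : ℝ) (𝓛 : Set (ℂ → ℂ)) (C A : Set ℂ) : Prop where
  p_pos : 0 < p
  δ_pos : 0 < δ
  W_pos : 0 < W
  B_inv : ∀ b ∈ B, ∀ l : ℤ, b + p * l * Complex.I ∈ B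
  B_sep : ∀ b ∈ B, ∀ b' ∈ B, b ≠ b' → 8 * δ ≤ ‖b - b'‖
  B_re : ∀ b ∈ B, |b.re| + 4 * δ ≤ W
  sub : 𝓛.Subsingleton
  L_an : ∀ L ∈ 𝓛, ∀ z, z ∉ B → AnalyticAt ℂ L z ∧ L z ≠ 0 ∧ L z ≠ 1
  L_mer : ∀ L ∈ 𝓛, ∀ z, MeromorphicAt L z
  L_per : ∀ L ∈ 𝓛, ∀ z, L (z + p * Complex.I) = L z
  L_grow : ∀ L ∈ 𝓛, ∃ M : ℝ, 0 ≤ M ∧ ∀ z : ℂ, W - 4 * δ < |z.re| → |Real.log ‖L z‖| ≤ M * (1 + ‖z‖)
  C_sub : C ⊆ B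
  C_inv : ∀ b ∈ C, ∀ l : ℤ, b + p * l * Complex.I ∈ C
  A_fin : A.Finite
  A_zero : (0 : ℂ) ∈ A
  A_one : (1 : ℂ) ∈ A

/-- the elementary fields of `HDyn` -/
structure HD0 {Y : Type} [MetricSpace Y] (K : Set Y) (p : ℝ) (B : Set ℂ) (δ W : ℝ) (S : Set ℂ → Set (ℂ → Y)) : Prop where
  compact : IsCompact K
  p_pos : 0 < p
  δ_pos : 0 < δ
  W_pos : 0 < W
  B_inv : ∀ b ∈ B, ∀ l : ℤ, b + p * l * Complex.I ∈ B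
  B_sep : ∀ b ∈ B, ∀ b' ∈ B, b ≠ b' → 8 * δ ≤ ‖b - b'‖
  B_re : ∀ b ∈ B, |b.re| + 4 * δ ≤ W
  anti : ∀ Ω Ω' : Set ℂ, IsOpen Ω → Convex ℝ Ω → IsOpen Ω' → Convex ℝ Ω' → Ω' ⊆ Ω → S Ω ⊆ S Ω'
  mem : ∀ Ω : Set ℂ, IsOpen Ω → Convex ℝ Ω → ∀ f ∈ S Ω, ∀ z ∈ Ω, z ∉ B → f z ∈ K
  lip : ∀ δ' R : ℝ, 0 < δ' → ∃ L : ℝ, 0 < L ∧ ∀ Ω : Set ℂ, IsOpen Ω → Convex ℝ Ω → ∀ f ∈ S Ω, ∀ z ∈ Gd B δ', |z.re| ≤ R → closedBall z δ' ⊆ Ω →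
    ∀ w ∈ closedBall z (δ' / 2), dist (f z) (f w) ≤ L * ‖z - w‖
  trans : ∀ Ω : Set ℂ, IsOpen Ω → Convex ℝ Ω → ∀ f ∈ S Ω, ∀ l : ℤ, (fun z => f (z + p * l * Complex.I)) ∈ S (Sh p l Ω)
  lim : ∀ (𝒰 : Ultrafilter ℕ) (Ω : ℕ → Set ℂ) (F : ℕ → ℂ → Y) (f : ℂ → Y), (∀ n, IsOpen (Ω n) ∧ Convex ℝ (Ω n)) →
    (∀ R : ℝ, ∀ᶠ n in (𝒰 : Filter ℕ), ball 0 R ⊆ Ω n) → (∀ᶠ n in (𝒰 : Filter ℕ), F n ∈ S (Ω n)) →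
    (∀ z, z ∉ B → Tendsto (fun n => F n z) 𝒰 (𝓝 (f z))) → f ∈ S Set.univ
  uniq : ∀ Ω : Set ℂ, IsOpen Ω → Convex ℝ Ω → ∀ f ∈ S Ω, ∀ g ∈ S Ω, ∀ z₀ ∈ Ω, z₀ ∉ B → (∃ᶠ z in 𝓝[≠] z₀, f z = g z) → ∀ z ∈ Ω, z ∉ B → f z = g z

end Pool.Agent.H62.LR
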