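import Pool.Agent.H62.LR.Klein
import Pool.Agent.H87.LR.Hd0
import Pool.Agent.H87.LR.HalfOf
import Pool.Agent.H87.LR.LAN
import Pool.Agent.H87.LR.LHI
import Pool.Agent.H36.LR.LHN

/-!
# LR Dyn: the members over `ℂ` and over half planes

* `hdyn`: the dynamical situation for the family `Sc`.
* `output`: the members over `ℂ` are finitely many periodic functions, the members over half planes are their restrictions.
-/

set_option autoImplicit false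

open Topology Filter Metric

noncomputable section

namespace Pool.Agent.H62.LR

open Pool.Agent.H62.EF (MN pr)
open Pool.Agent.H87.LU (Gd HP HDyn AgO isClosed_gd gd_notMem isOpen_HP convex_HP HP_anti)

variable {p : ℝ} {B : Set ℂ} {δ W : ℝ} {𝓛 : Set (ℂ → ℂ)} {C A : Set ℂ}

/-- sections are continuous at the points off `B` -/
theorem sec_cont (h : BaseD p B δ W 𝓛 C A) {s : ℂ → MN 1} (hs : s ∈ Sec 𝓛) {z : ℂ} (hz : z ∉ B) : ContinuousAt s z := by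
  rw [mem_sec] at hs
  rcases hs with rfl | rfl | rfl | ⟨L, hL, rfl⟩
  · exact continuousAt_const
  · exact continuousAt_const
  · exact continuousAt_const
  · exact continuous_kp.continuousAt.comp (h.L_an L hL z hz).1.continuousAt

/-- two different sections are apart from each other -/
theorem sec_dist (h : BaseD p B δ W 𝓛 C A) {s s' : ℂ → MN 1} (hs : s ∈ Sec 𝓛) (hs' : s' ∈ Sec 𝓛) (hne : s ≠ s') :
    ∃ d : ℝ, 0 < d ∧ ∀ z ∈ Gd B δ, |z.re| ≤ W → d < dist (s z) (s' z) := by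
  have hδ := h.δ_pos
  have hp1 : ∀ t ∈ Sec 𝓛, ∀ z, t (z + p * Complex.I) = t z := fun t ht z => by
    have h1 := sec_add h ht 1 z
    rwa [Int.cast_one, mul_one] at h1
  obtain ⟨d, hd, hd'⟩ := strip_pos h (G := fun z => dist (s z) (s' z)) (fun z => by simp only [hp1 s hs z, hp1 s' hs' z])
    (fun z hz _ => (sec_cont h hs (gd_notMem hδ hz)).dist (sec_cont h hs' (gd_notMem hδ hz))) (fun z hz _ => dist_pos.2 fun he =>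
      hne (sec_eq h hs hs' (gd_notMem hδ hz) he))
  exact ⟨d / 2, by positivity, fun z hz hzW => by linarith [hd' z hz hzW]⟩

/-- a member of `Sc` which is away from the sections is a function in `Tm` -/
theorem tm_of_away (h : BaseD p B δ W 𝓛 C A) {σ ρ d : ℝ} (hσ : σ = 1 ∨ σ = -1) (hd : 0 < d) {y : ℂ → MN 1} (hy : y ∈ Sc B 𝓛 C A (HP σ ρ))
    (ha : ∀ z ∈ HP σ ρ, z ∈ Gd B δ → |z.re| ≤ W → ∀ s ∈ Sec 𝓛, d ≤ dist (y z) (s z)) :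
    ∃ f ∈ Tm B 𝓛 C A (HP σ ρ), ∀ z ∈ HP σ ρ, z ∉ B → y z = kp (f z) := by
  rcases hy with ⟨s, hs, hy⟩ | hy
  · exfalso
    obtain ⟨z, hz, hzG, hzW, hzB⟩ := exists_good h hσ ρ
    have h1 := ha z hz hzG hzW s hs
    rw [hy z hz hzB, dist_self] at h1
    linarith
  · exact hy

/-- the dynamical situation, from the two statements on half planes -/
theorem hdyn_of (h : BaseD p B δ W 𝓛 C A)
    (LA : ∀ s ∈ Sec 𝓛, ∃ d : ℝ, 0 < d ∧ ∀ σ ρ : ℝ, (σ = 1 ∨ σ = -1) → ∀ f ∈ Tm B 𝓛 C A (HP σ ρ),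
      ¬ ∀ z ∈ HP σ ρ, z ∈ Gd B δ → |z.re| ≤ W → dist (kp (f z)) (s z) ≤ d)
    (LH : ∀ c : ℝ, 0 < c → ∃ ε : ℝ, 0 < ε ∧ ∀ σ ρ : ℝ, (σ = 1 ∨ σ = -1) → ∀ f ∈ Tm B 𝓛 C A (HP σ ρ), ∀ g ∈ Tm B 𝓛 C A (HP σ ρ),
      (∀ z ∈ HP σ ρ, z ∈ Gd B δ → |z.re| ≤ W → c ≤ ‖f z‖ ∧ ‖f z‖ ≤ 1 / c ∧ c ≤ ‖f z - 1‖ ∧ (∀ L ∈ 𝓛, c ≤ ‖f z - L z‖) ∧
        c ≤ ‖g z‖ ∧ ‖g z‖ ≤ 1 / c ∧ c ≤ ‖g z - 1‖ ∧ (∀ L ∈ 𝓛, c ≤ ‖g z - L z‖) ∧ ‖f z - g z‖ ≤ ε) →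
      ∃ ρ' : ℝ, ρ ≤ ρ' ∧ ∀ z ∈ HP σ ρ', z ∉ B → f z = g z) :
    HDyn (closedBall (0 : MN 1) 1) p B δ W (Sc B 𝓛 C A) := by
  have hδ := h.δ_pos
  have hd := hd0 h
  have hfin := sec_finite h
  -- a common constant for LA
  have hLA : ∃ d : ℝ, 0 < d ∧ (∀ s ∈ Sec 𝓛, ∀ s' ∈ Sec 𝓛, s ≠ s' → ∀ z ∈ Gd B δ, |z.re| ≤ W → d < dist (s z) (s' z)) ∧
      ∀ s ∈ Sec 𝓛, ∀ σ ρ : ℝ, (σ = 1 ∨ σ = -1) → ∀ f ∈ Tm B 𝓛 C A (HP σ ρ),
        ¬ ∀ z ∈ HP σ ρ, z ∈ Gd B δ → |z.re| ≤ W → dist (kp (f z)) (s z) ≤ d := by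
    have h1 : ∀ᶠ d : ℝ in 𝓝[>] 0, ∀ s ∈ Sec 𝓛, ∀ s' ∈ Sec 𝓛, s ≠ s' → ∀ z ∈ Gd B δ, |z.re| ≤ W → d < dist (s z) (s' z) := by
      rw [Filter.eventually_all_finite hfin]
      intro s hs
      rw [Filter.eventually_all_finite hfin]
      intro s' hs'
      by_cases hne : s = s'
      · exact Eventually.of_forall fun _ h2 => absurd hne h2
      · obtain ⟨d, hd1, hd2⟩ := sec_dist h hs hs' hne
        filter_upwards [nhdsWithin_le_nhds (Iio_mem_nhds hd1)] with e he _ z hz hzW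
        have he' : e < d := he
        linarith [hd2 z hz hzW]
    have h2 : ∀ᶠ d : ℝ in 𝓝[>] 0, ∀ s ∈ Sec 𝓛, ∀ σ ρ : ℝ, (σ = 1 ∨ σ = -1) → ∀ f ∈ Tm B 𝓛 C A (HP σ ρ),
        ¬ ∀ z ∈ HP σ ρ, z ∈ Gd B δ → |z.re| ≤ W → dist (kp (f z)) (s z) ≤ d := by
      rw [Filter.eventually_all_finite hfin]
      intro s hs
      obtain ⟨d, hd1, hd2⟩ := LA s hs
      filter_upwards [nhdsWithin_le_nhds (Iio_mem_nhds hd1)] with e he σ ρ hσ f hf hcl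
      have he' : e < d := he
      exact hd2 σ ρ hσ f hf fun z hz hzG hzW => (hcl z hz hzG hzW).trans he'.le
    obtain ⟨d, hd1, hd2, hd3⟩ := (h1.and (h2.and self_mem_nhdsWithin)).exists
    exact ⟨d, hd3, hd1, hd2⟩
  obtain ⟨d₁, hd₁, hsec, hLA'⟩ := hLA
  refine half_of hd (Sec 𝓛) hfin (fun s hs => Or.inl ⟨s, hs, fun _ _ _ => rfl⟩) (fun s hs z => by
      have h1 := sec_add h hs 1 z
      rwa [Int.cast_one, mul_one] at h1) (fun f hf s hs z hz he => disj h hf hs (Set.mem_univ z) hz he) ⟨d₁, hd₁, ?_⟩ ?_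
  · intro σ ρ hσ y hy s hs hcl
    rcases hy with ⟨s', hs', hy⟩ | ⟨f, hf, hy⟩
    · by_cases hne : s' = s
      · rw [← hne]
        exact hy
      · exfalso
        obtain ⟨z, hz, hzG, hzW, hzB⟩ := exists_good h hσ ρ
        have h1 := hcl z hz hzG hzW
        rw [hy z hz hzB] at h1
        exact absurd (hsec s' hs' s hs hne z hzG hzW) (not_lt.2 h1)
    · exfalso
      refine hLA' s hs σ ρ hσ f hf fun z hz hzG hzW => ?_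
      rw [← hy z hz (gd_notMem hδ hzG)]
      exact hcl z hz hzG hzW
  · intro δ₀ hδ₀
    have hinf : (fun _ : ℂ => kinf) ∈ Sec 𝓛 := mem_sec.2 (Or.inl rfl)
    have h0 : (fun _ : ℂ => kp 0) ∈ Sec 𝓛 := mem_sec.2 (Or.inr (Or.inl rfl))
    have h1 : (fun _ : ℂ => kp 1) ∈ Sec 𝓛 := mem_sec.2 (Or.inr (Or.inr (Or.inl rfl)))
    have hc : 0 < δ₀ / 2 := by positivity
    obtain ⟨ε, hε, hLH⟩ := LH (δ₀ / 2) hc
    obtain ⟨e, he, he'⟩ := Cho.close_of_dist (1 / (δ₀ / 2)) hε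
    refine ⟨e, he, fun σ ρ hσ y hy y' hy' hcl => ?_⟩
    obtain ⟨f, hf, hyf⟩ := tm_of_away h hσ hδ₀ hy fun z hz hzG hzW s hs => ((hcl z hz hzG hzW).1 s hs).1
    obtain ⟨g, hg, hyg⟩ := tm_of_away h hσ hδ₀ hy' fun z hz hzG hzW s hs => ((hcl z hz hzG hzW).1 s hs).2
    have key : ∀ (u : ℂ → ℂ) (w : ℂ → MN 1), u ∈ Tm B 𝓛 C A (HP σ ρ) → (∀ z ∈ HP σ ρ, z ∉ B → w z = kp (u z)) → ∀ z ∈ HP σ ρ, z ∈ Gd B δ → |z.re| ≤ W →
        (∀ s ∈ Sec 𝓛, δ₀ ≤ dist (w z) (s z)) →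
        δ₀ / 2 ≤ ‖u z‖ ∧ ‖u z‖ ≤ 1 / (δ₀ / 2) ∧ δ₀ / 2 ≤ ‖u z - 1‖ ∧ ∀ L ∈ 𝓛, δ₀ / 2 ≤ ‖u z - L z‖ := by
      intro u w hu hwu z hz hzG hzW haw
      have hzB := gd_notMem hδ hzG
      rw [hwu z hz hzB] at haw
      refine ⟨?_, ?_, ?_, fun L hL => ?_⟩
      · have h2 := (haw _ h0).trans (Cho.dist_le (u z) 0)
        rw [sub_zero] at h2
        linarith
      · have hu0 : u z ≠ 0 := (hu.2.1 z hz hzB).2.1
        have h2 := (haw _ hinf).trans (Cho.dist_inf_le hu0)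
        have h3 : 0 < ‖u z‖ := norm_pos_iff.2 hu0
        rw [le_div_iff₀ h3] at h2
        rw [le_div_iff₀ hc]
        linarith
      · have h2 := (haw _ h1).trans (Cho.dist_le (u z) 1)
        linarith
      · have h2 := (haw _ (mem_sec.2 (Or.inr (Or.inr (Or.inr ⟨L, hL, rfl⟩))))).trans (Cho.dist_le (u z) (L z))
        linarith
    obtain ⟨ρ', hρ', hag⟩ := hLH σ ρ hσ f hf g hg fun z hz hzG hzW => by
      obtain ⟨h2, h3⟩ := hcl z hz hzG hzW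
      obtain ⟨h4, h5, h6, h7⟩ := key f y hf hyf z hz hzG hzW fun s hs => (h2 s hs).1
      obtain ⟨h8, h9, h10, h11⟩ := key g y' hg hyg z hz hzG hzW fun s hs => (h2 s hs).2
      refine ⟨h4, h5, h6, h7, h8, h9, h10, h11, he' _ _ h9 ?_⟩
      rw [← hyf z hz (gd_notMem hδ hzG), ← hyg z hz (gd_notMem hδ hzG)]
      exact h3
    refine hd.ag_of_HP (isOpen_HP _ _) (convex_HP _ _) hy hy' hσ (HP_anti hρ') fun z hz hzB => ?_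
    have hz' : z ∈ HP σ ρ := HP_anti hρ' hz
    rw [hyf z hz' hzB, hyg z hz' hzB, hag z hz hzB]

/-- the dynamical situation -/
theorem hdyn (h : BaseD p B δ W 𝓛 C A) (hNI : (C = ∅ ∧ ∃ L ∈ 𝓛, ∃ b₀ ∈ B, AnalyticAt ℂ L b₀ ∧ L b₀ = 1) ∨ (𝓛 = ∅ ∧ C.Nonempty)) :
    HDyn (closedBall (0 : MN 1) 1) p B δ W (Sc B 𝓛 C A) := by
  rcases hNI with ⟨hC, L, hL, b₀, hb₀, hLa, hL1⟩ | ⟨h𝓛, b₀, hb₀⟩
  · subst hC
    refine hdyn_of h (fun s hs => ?_) (fun c hc => ?_)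
    · obtain ⟨ε, hε, hla⟩ := la_N h hL hb₀ hLa hL1
      obtain ⟨d, hd, hnear⟩ := near_N h hL hs hε
      refine ⟨d, hd, fun σ ρ hσ f hf hcl => ?_⟩
      obtain ⟨g, hg, hgn⟩ := hnear _ f hf
      exact hla σ ρ hσ g hg fun z hz hzG hzW => hgn z hz hzG hzW (hcl z hz hzG hzW)
    · obtain ⟨ε, hε, hlh⟩ := lh_N h hL hb₀ hLa hL1 hc
      refine ⟨ε, hε, fun σ ρ hσ f hf g hg hcl => hlh σ ρ hσ f hf g hg fun z hz hzG hzW => ?_⟩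
      obtain ⟨h1, h2, h3, h4, h5, h6, h7, h8, h9⟩ := hcl z hz hzG hzW
      exact ⟨h1, h2, h3, h4 L hL, h5, h6, h7, h8 L hL, h9⟩
  · subst h𝓛
    refine hdyn_of h (fun s hs => ?_) (fun c hc => ?_)
    · obtain ⟨A', hA', hnear⟩ := near_I h hs
      obtain ⟨ε, hε, hla⟩ := la_I hA' hb₀
      obtain ⟨d, hd, hnear'⟩ := hnear ε hε
      refine ⟨d, hd, fun σ ρ hσ f hf hcl => ?_⟩
      obtain ⟨g, hg, hgn⟩ := hnear' _ f hf
      exact hla σ ρ hσ g hg fun z hz hzG hzW => hgn z hz hzG hzW (hcl z hz hzG hzW)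
    · obtain ⟨ε, hε, hlh⟩ := lh_I h hb₀ hc
      refine ⟨ε, hε, fun σ ρ hσ f hf g hg hcl => hlh σ ρ hσ f hf g hg fun z hz hzG hzW => ?_⟩
      obtain ⟨h1, h2, h3, h4, h5, h6, h7, h8, h9⟩ := hcl z hz hzG hzW
      exact ⟨h1, h2, h3, h5, h6, h7, h9⟩

/-- **The output.** -/
theorem output (h : BaseD p B δ W 𝓛 C A) (hNI : (C = ∅ ∧ ∃ L ∈ 𝓛, ∃ b₀ ∈ B, AnalyticAt ℂ L b₀ ∧ L b₀ = 1) ∨ (𝓛 = ∅ ∧ C.Nonempty)) :
    ∃ (q : ℕ) (𝓕 : Set (ℂ → ℂ)), 1 ≤ q ∧ 𝓕.Finite ∧ 𝓕 ⊆ Tm B 𝓛 C A Set.univ ∧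
      (∀ f ∈ Tm B 𝓛 C A Set.univ, ∃ g ∈ 𝓕, ∀ z, z ∉ B → f z = g z) ∧
      (∀ σ ρ : ℝ, σ = 1 ∨ σ = -1 → ∀ f ∈ Tm B 𝓛 C A (HP σ ρ), ∃ g ∈ 𝓕, ∀ z ∈ HP σ ρ, z ∉ B → f z = g z) ∧
      ∀ f ∈ 𝓕, ∀ z, z ∉ B → f (z + p * q * Complex.I) = f z := by
  classical
  have H := hdyn h hNI
  obtain ⟨𝓖, hfin, hsub, hcov⟩ := H.finite
  -- choose functions
  have hch : ∀ y : ℂ → MN 1, ∃ f : ℂ → ℂ, (∃ g ∈ Tm B 𝓛 C A Set.univ, ∀ z, z ∉ B → y z = kp (g z)) →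
      f ∈ Tm B 𝓛 C A Set.univ ∧ ∀ z, z ∉ B → y z = kp (f z) := by
    intro y
    by_cases h1 : ∃ g ∈ Tm B 𝓛 C A Set.univ, ∀ z, z ∉ B → y z = kp (g z)
    · obtain ⟨g, hg, hg'⟩ := h1
      exact ⟨g, fun _ => ⟨hg, hg'⟩⟩
    · exact ⟨fun _ => 0, fun h2 => absurd h2 h1⟩
  choose Φ hΦ using hch
  set 𝓖' : Set (ℂ → MN 1) := {y | y ∈ 𝓖 ∧ ∃ g ∈ Tm B 𝓛 C A Set.univ, ∀ z, z ∉ B → y z = kp (g z)} with h𝓖'
  have hfin' : 𝓖'.Finite := hfin.subset fun y hy => hy.1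
  have huniv : ∀ f ∈ Tm B 𝓛 C A Set.univ, ∃ g ∈ Φ '' 𝓖', ∀ z, z ∉ B → f z = g z := by
    intro f hf
    obtain ⟨y, hy, hag⟩ := hcov (fun z => kp (f z)) (Or.inr ⟨f, hf, fun _ _ _ => rfl⟩)
    have h1 : ∃ g ∈ Tm B 𝓛 C A Set.univ, ∀ z, z ∉ B → y z = kp (g z) := ⟨f, hf, fun z hz => (hag z (Set.mem_univ z) hz).symm⟩
    refine ⟨Φ y, ⟨y, ⟨hy, h1⟩, rfl⟩, fun z hz => ?_⟩
    have h2 := (hΦ y h1).2 z hz
    have h3 : kp (f z) = y z := hag z (Set.mem_univ z) hz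
    exact kp_inj.1 (h3.trans h2)
  -- periods
  have hper : ∀ y ∈ 𝓖', ∃ q : ℕ, 1 ≤ q ∧ ∀ z, z ∉ B → y (z + p * q * Complex.I) = y z := fun y hy => H.period (hsub hy.1)
  choose! Q hQ1 hQ using hper
  set q : ℕ := ∏ y ∈ hfin'.toFinset, Q y with hq
  have hq1 : 1 ≤ q := Nat.one_le_iff_ne_zero.2 (Finset.prod_ne_zero_iff.2 fun y hy => by
    have := hQ1 y (hfin'.mem_toFinset.1 hy)
    omega)
  refine ⟨q, Φ '' 𝓖', hq1, hfin'.image _, ?_, huniv, fun σ ρ hσ f hf => ?_, ?_⟩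
  · rintro _ ⟨y, hy, rfl⟩
    exact (hΦ y hy.2).1
  · obtain ⟨G, hG, hag⟩ := H.arm hσ (f := fun z => kp (f z)) (Or.inr ⟨f, hf, fun _ _ _ => rfl⟩)
    rcases hG with ⟨s, hs, hGs⟩ | ⟨g, hg, hGg⟩
    · exfalso
      obtain ⟨z, hz, -, -, hzB⟩ := exists_good h hσ ρ
      have h1 : kp (f z) = G z := hag z hz hzB
      rw [hGs z (Set.mem_univ z) hzB] at h1
      exact tm_ne hf hs hz hzB h1
    · obtain ⟨g', hg', hgg⟩ := huniv g hg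
      refine ⟨g', hg', fun z hz hzB => ?_⟩
      have h1 : kp (f z) = G z := hag z hz hzB
      rw [hGg z (Set.mem_univ z) hzB] at h1
      rw [kp_inj.1 h1, hgg z hzB]
  · rintro _ ⟨y, hy, rfl⟩ z hz
    obtain ⟨k, hk⟩ : Q y ∣ q := Finset.dvd_prod_of_mem Q (hfin'.mem_toFinset.2 hy)
    have hstep : ∀ n : ℕ, ∀ z, z ∉ B → y (z + p * ((Q y * n : ℕ) : ℂ) * Complex.I) = y z := by
      intro n
      induction n with
      | zero =>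
        intro z _
        simp
      | succ n ih =>
        intro z hz
        have h1 : z + p * ((Q y * (n + 1) : ℕ) : ℂ) * Complex.I = (z + p * ((Q y * n : ℕ) : ℂ) * Complex.I) + p * (Q y : ℂ) * Complex.I := by
          push_cast
          ring
        have h2 : z + p * ((Q y * n : ℕ) : ℂ) * Complex.I ∉ B := by
          intro hB
          apply hz
          have h3 := B_add h (b := z) ((Q y * n : ℕ) : ℤ)
          rw [Int.cast_natCast] at h3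
          exact h3.1 hB
        rw [h1, hQ y hy _ h2, ih z hz]
    have hzB' : z + p * (q : ℂ) * Complex.I ∉ B := by
      intro hB
      apply hz
      have h3 := B_add h (b := z) ((q : ℕ) : ℤ)
      rw [Int.cast_natCast] at h3
      exact h3.1 hB
    have h1 := hstep k z hz
    rw [← hk] at h1
    have h2 := (hΦ y hy.2).2
    rw [h2 _ hzB', h2 z hz] at h1
    exact kp_inj.1 h1

end Pool.Agent.H62.LR
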