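import Pool.Agent.H62.LR.LogFn
import Pool.Agent.H62.LR.Landau
import Pool.Agent.EG.LE.Gro
import Pool.Agent.H87.LU.ZeroUp

/-!
# LR EndG: growth in the ends; functions of polynomial growth with zeros at `a + i p ℤ`

* `end_growth`, `zero_hp`.
-/

set_option autoImplicit false

open Topology Filter Metric

noncomputable section

namespace Pool.Agent.H62.LR

open Pool.Agent.H87.LU (Gd HP ctr mem_ball_ctr ctr_re ctr_im isOpen_HP convex_HP HP_anti gd_notMem zero_up)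

variable {p : ℝ} {B : Set ℂ} {δ W : ℝ} {𝓛 : Set (ℂ → ℂ)} {C A : Set ℂ}

/-- polynomial growth and zeros at `a + i p ℤ` -/
theorem zero_hp {J : ℂ → ℂ} {a : ℂ} {σ ρ M : ℝ} {k : ℕ} (hσ : σ = 1 ∨ σ = -1) (hp : 0 < p) (hJ : DifferentiableOn ℂ J (HP σ ρ)) (hM : 0 ≤ M)
    (hb : ∀ z ∈ HP σ ρ, ‖J z‖ ≤ M * (1 + ‖z‖) ^ k) (h0 : ∀ l : ℤ, a + p * l * Complex.I ∈ HP σ ρ → J (a + p * l * Complex.I) = 0) :
    ∀ z ∈ HP σ ρ, J z = 0 := by
  rcases hσ with h1 | h1
  · subst h1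
    have hVeq : HP 1 ρ = {z : ℂ | ρ < z.im} := by
      unfold HP
      simp only [one_mul]
    intro z hz
    refine zero_up (a := a) (m := k) hp (hVeq ▸ hJ) hM (fun w hw => hb w (by rw [hVeq]; exact hw)) (fun l hl => h0 l (by rw [hVeq]; exact hl)) z
      (by rw [hVeq] at hz; exact hz)
  · subst h1
    have hVeq : ∀ z : ℂ, ρ < z.im → -z ∈ HP (-1) ρ := by
      intro z hz
      show ρ < -1 * (-z).im
      rw [Complex.neg_im]
      linarith
    intro z hz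
    have hz' : ρ < (-z).im := by
      have h2 : ρ < -1 * z.im := hz
      rw [Complex.neg_im]
      linarith
    have h2 := zero_up (J := fun w => J (-w)) (a := -a) (m := k) (ρ := ρ) hp
      (fun w hw => ((hJ.differentiableAt ((isOpen_HP _ _).mem_nhds (hVeq w hw))).comp w differentiableAt_id.neg).differentiableWithinAt) hM
      (fun w hw => by
        have h3 := hb (-w) (hVeq w hw)
        rwa [norm_neg] at h3) (fun l hl => by
        have h3 : -(-a + p * l * Complex.I) = a + p * ((-l : ℤ) : ℂ) * Complex.I := by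
          push_cast
          ring
        have h4 := hVeq _ hl
        rw [h3] at h4
        show J (-(-a + p * l * Complex.I)) = 0
        rw [h3]
        exact h0 (-l) h4) (-z) hz'
    simpa using h2

/-- the left end -/
theorem left_growth {σ ρ W₀ η : ℝ} (hσ : σ = 1 ∨ σ = -1) (hη : 0 < η) (hη1 : η ≤ 1) (hW₀ : 0 < W₀) {X : ℂ → ℂ}
    (hX : ∀ z ∈ HP σ ρ, z.re < -W₀ → DifferentiableAt ℂ X z ∧ X z ≠ 0 ∧ X z ≠ 1) {M₀ : ℝ}
    (hM₀ : ∀ z ∈ HP σ ρ, -W₀ - 2 * η ≤ z.re → z.re ≤ -W₀ - η → ‖X z‖ ≤ M₀) :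
    ∃ M : ℝ, 0 ≤ M ∧ ∀ z ∈ HP σ (ρ + 3), z.re ≤ -W₀ - η → Real.log ‖X z‖ ≤ M * (1 + ‖z‖) ^ 8 := by
  have hσσ : σ * σ = 1 := by rcases hσ with rfl | rfl <;> norm_num
  obtain ⟨c₀, hc₀, hc₀1, hlb⟩ := local_bound (1 / 2)
  -- the radius
  set d : ℝ := min c₀ (1 / 2) / 2600 * η with hd
  have hmin : 0 < min c₀ (1 / 2) := lt_min hc₀ (by norm_num)
  have hd0 : 0 < d := by positivity
  have hdη : d ≤ η / 2600 := by
    rw [hd]
    have : min c₀ (1 / 2) ≤ 1 := (min_le_right _ _).trans (by norm_num)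
    nlinarith
  have hdc : d ≤ c₀ * η := by
    rw [hd]
    have : min c₀ (1 / 2) ≤ c₀ := min_le_left _ _
    nlinarith
  set C₃ : ℝ := |Real.log (max M₀ 1)| with hC₃
  obtain ⟨Cg, hCg, hgr⟩ := Pool.Agent.EG.LE.growth (δ₁ := d) (C₃ := C₃) hd0 (by linarith) (abs_nonneg _)
  set S₀ : ℝ := 5 + 2 * (ρ + 1) ^ 2 with hS₀
  have hS₀5 : 5 ≤ S₀ := by
    rw [hS₀]
    nlinarith [sq_nonneg (ρ + 1)]
  refine ⟨Cg * S₀ ^ 4, by positivity, fun z hz hzre => ?_⟩
  have hz' : ρ + 3 < σ * z.im := hz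
  set y : ℝ := σ * z.im - (ρ + 1) with hy
  have hy2 : 2 ≤ y := by
    rw [hy]
    linarith
  set s : ℝ := z.re ^ 2 + y ^ 2 + 1 with hs
  have hs1 : 1 ≤ s := by
    rw [hs]
    nlinarith [sq_nonneg z.re, sq_nonneg y]
  set c : ℂ := ctr σ (ρ + 1) s with hc
  have hcb : ∀ w : ℂ, w ∈ closedBall c s → ρ + 1 ≤ σ * w.im := by
    intro w hw
    rw [mem_closedBall, dist_eq_norm] at hw
    have h1 := (Complex.abs_im_le_norm (w - c)).trans hw
    rw [Complex.sub_im, hc, ctr_im] at h1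
    have h2 : |σ * w.im - ((ρ + 1) + s)| ≤ s := by
      have h3 : σ * w.im - ((ρ + 1) + s) = σ * (w.im - σ * ((ρ + 1) + s)) := by
        calc σ * w.im - ((ρ + 1) + s) = σ * w.im - (σ * σ) * ((ρ + 1) + s) := by rw [hσσ, one_mul]
          _ = _ := by ring
      have h4 : |σ| = 1 := by rcases hσ with rfl | rfl <;> norm_num
      rw [h3, abs_mul, h4, one_mul]
      exact h1
    linarith [(abs_le.1 h2).1]
  set E : Set ℂ := HP σ ρ ∩ {z : ℂ | z.re < -W₀} with hE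
  have hEo : IsOpen E := (isOpen_HP σ ρ).inter (isOpen_lt Complex.continuous_re continuous_const)
  have hXd : ∀ w ∈ E, DifferentiableAt ℂ X w ∧ X w ≠ 0 ∧ X w ≠ 1 := fun w hw => hX w hw.1 hw.2
  have hbig : ∀ w ∈ E, w ∈ closedBall c s → w.re ≤ -(W₀ + η) → ball w η ⊆ E := by
    intro w hw hwc hwre u hu
    rw [mem_ball, dist_eq_norm] at hu
    have h1 := (Complex.abs_re_le_norm (u - w)).trans_lt hu
    have h2 := (Complex.abs_im_le_norm (u - w)).trans_lt hu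
    rw [Complex.sub_re] at h1
    rw [Complex.sub_im] at h2
    have h3 := hcb w hwc
    refine ⟨?_, ?_⟩
    · show ρ < σ * u.im
      rcases hσ with h4 | h4
      · rw [h4] at h3 ⊢
        linarith [(abs_lt.1 h2).1]
      · rw [h4] at h3 ⊢
        linarith [(abs_lt.1 h2).2]
    · show u.re < -W₀
      linarith [(abs_lt.1 h1).2]
  have hinv : ∀ w : ℂ, w ∈ E → w ∈ closedBall c s → w.re ≤ -(W₀ + η) → DifferentiableOn ℂ (fun z => (X z)⁻¹) (ball w η) ∧
      ∀ u ∈ ball w η, (X u)⁻¹ ≠ 0 ∧ (X u)⁻¹ ≠ 1 := by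
    intro w hw hwc hwre
    have hsub := hbig w hw hwc hwre
    refine ⟨fun u hu => ((hXd u (hsub hu)).1.inv (hXd u (hsub hu)).2.1).differentiableWithinAt, fun u hu => ⟨inv_ne_zero (hXd u (hsub hu)).2.1, ?_⟩⟩
    intro h1
    exact (hXd u (hsub hu)).2.2 (inv_eq_one.1 h1)
  have key := hgr c s (W₀ + η) E (fun z => (X z)⁻¹) (ctr_re _ _ _) (by linarith) hEo (fun w hw => ((hXd w hw).1.inv (hXd w hw).2.1).differentiableWithinAt)
    (fun w hw => inv_ne_zero (hXd w hw).2.1) (fun w hw hwX hwc hwre => ?_) (fun w hw hwc hw1 hw2 => ?_) z ?_ ?_ (by linarith)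
  · -- conclusion
    have h1 : -Real.log ‖(X z)⁻¹‖ = Real.log ‖X z‖ := by
      rw [norm_inv, Real.log_inv, neg_neg]
    rw [h1] at key
    refine key.trans ?_
    have hsz : 1 + s ≤ S₀ * (1 + ‖z‖) ^ 2 := by
      have h3 : z.re ^ 2 + z.im ^ 2 = ‖z‖ ^ 2 := by
        rw [Complex.sq_norm, Complex.normSq_apply]
        ring
      have h4 : (σ * z.im) ^ 2 = z.im ^ 2 := by
        rw [mul_pow, pow_two σ, hσσ, one_mul]
      have h5 : y ^ 2 ≤ 2 * z.im ^ 2 + 2 * (ρ + 1) ^ 2 := by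
        rw [hy]
        nlinarith [sq_nonneg (σ * z.im + (ρ + 1))]
      have h6 : 0 ≤ ‖z‖ := norm_nonneg z
      have h7 : z.re ^ 2 + y ^ 2 ≤ 2 * ‖z‖ ^ 2 + 2 * (ρ + 1) ^ 2 := by nlinarith [sq_nonneg z.re]
      have h8 : 2 * (ρ + 1) ^ 2 ≤ 2 * (ρ + 1) ^ 2 * (1 + ‖z‖) ^ 2 := le_mul_of_one_le_right (by positivity) (by nlinarith)
      rw [hs, hS₀]
      nlinarith
    calc Cg * (1 + s) ^ 4 ≤ Cg * (S₀ * (1 + ‖z‖) ^ 2) ^ 4 := mul_le_mul_of_nonneg_left (pow_le_pow_left₀ (by linarith) hsz 4) hCg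
      _ = Cg * S₀ ^ 4 * (1 + ‖z‖) ^ 8 := by ring
  · -- Lipschitz
    obtain ⟨h1, h2⟩ := hinv w hw hwc hwre
    have hdη' : ball w d ⊆ ball w η := ball_subset_ball (by linarith)
    refine ⟨hdη'.trans (hbig w hw hwc hwre), fun u hu => ?_⟩
    have h3 : ∀ v ∈ ball w d, ‖deriv (fun z => (X z)⁻¹) v‖ ≤ 312 / η := by
      intro v hv
      have h4 : ‖(X v)⁻¹‖ ≤ 1 / 2 + 1 := hlb _ w η hη h1 h2 hwX v (ball_subset_ball hdc hv)
      have h5 := landau_half hη h1 h2 (w := v) (ball_subset_ball (by linarith) hv)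
      refine h5.trans ?_
      have h6 : ‖(X v)⁻¹‖ ^ 2 ≤ (1 / 2 + 1) ^ 2 := pow_le_pow_left₀ (norm_nonneg _) h4 2
      calc 96 / η * (1 + ‖(X v)⁻¹‖ ^ 2) ≤ 96 / η * (1 + (1 / 2 + 1) ^ 2) := by gcongr
        _ = 312 / η := by ring
    have h4 := (convex_ball w d).norm_image_sub_le_of_norm_deriv_le (f := fun z => (X z)⁻¹) (C := 312 / η)
      (fun v hv => h1.differentiableAt (isOpen_ball.mem_nhds (hdη' hv))) h3 (mem_ball_self hd0) hu
    refine h4.trans ?_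
    rw [mem_ball, dist_eq_norm] at hu
    calc 312 / η * ‖u - w‖ ≤ 312 / η * (η / 2600) := by
          refine mul_le_mul_of_nonneg_left (by linarith) (by positivity)
      _ = 312 / 2600 := by field_simp
      _ ≤ 1 / 4 := by norm_num
  · -- the seam
    have h1 : ‖X w‖ ≤ M₀ := hM₀ w hw.1 (by linarith) (by linarith)
    have h2 : -Real.log ‖(X w)⁻¹‖ = Real.log ‖X w‖ := by
      rw [norm_inv, Real.log_inv, neg_neg]
    rw [h2]
    have h3 : 0 < ‖X w‖ := norm_pos_iff.2 (hXd w hw).2.1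
    have h4 : Real.log ‖X w‖ ≤ Real.log (max M₀ 1) := Real.log_le_log h3 (h1.trans (le_max_left _ _))
    exact h4.trans (le_abs_self _)
  · exact ⟨HP_anti (by linarith) hz, by show z.re < -W₀; linarith⟩
  · rw [mem_closedBall, dist_eq_norm]
    have hr2 : ‖z - c‖ ^ 2 = z.re ^ 2 + (y - s) ^ 2 := by
      rw [Complex.sq_norm, Complex.normSq_apply, Complex.sub_re, Complex.sub_im, hc, ctr_re, ctr_im, sub_zero]
      have h3 : (z.im - σ * ((ρ + 1) + s)) * (z.im - σ * ((ρ + 1) + s)) = (σ * z.im - ((ρ + 1) + s)) ^ 2 := by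
        have h4 : σ ^ 2 = 1 := by rw [pow_two]; exact hσσ
        calc (z.im - σ * ((ρ + 1) + s)) * (z.im - σ * ((ρ + 1) + s)) = z.im ^ 2 - 2 * σ * z.im * ((ρ + 1) + s) + σ ^ 2 * ((ρ + 1) + s) ^ 2 := by ring
          _ = σ ^ 2 * z.im ^ 2 - 2 * σ * z.im * ((ρ + 1) + s) + ((ρ + 1) + s) ^ 2 := by rw [h4]; ring
          _ = _ := by ring
      rw [h3, hy]
      ring
    have h5 : z.re ^ 2 + y ^ 2 = s - 1 := by
      rw [hs]
      ring
    have h6 : ‖z - c‖ ^ 2 ≤ (s - 1) ^ 2 := by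
      rw [hr2]
      nlinarith
    exact (pow_le_pow_iff_left₀ (norm_nonneg _) (by linarith) two_ne_zero).1 h6

/-- growth in the ends: `X` omits `0` and `1` in the ends and is bounded in the strip -/
theorem end_growth (h : BaseD p B δ W 𝓛 C A) {σ ρ : ℝ} (hσ : σ = 1 ∨ σ = -1) {X : ℂ → ℂ}
    (hX : ∀ z ∈ HP σ ρ, z ∉ B → AnalyticAt ℂ X z ∧ X z ≠ 0 ∧ X z ≠ 1) {M₀ : ℝ}
    (hM₀ : ∀ z ∈ HP σ ρ, z ∈ Gd B δ → |z.re| ≤ W → ‖X z‖ ≤ M₀) :
    ∃ M : ℝ, 0 ≤ M ∧ ∀ z ∈ HP σ (ρ + 3), W < |z.re| → Real.log ‖X z‖ ≤ M * (1 + ‖z‖) ^ 8 := by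
  have hδ := h.δ_pos
  have hW := h.W_pos
  -- W₀ = W - 2 η
  set η : ℝ := min (min δ 1) (W / 4) with hη
  have hη0 : 0 < η := lt_min (lt_min hδ one_pos) (by positivity)
  have hηδ : η ≤ δ := (min_le_left _ _).trans (min_le_left _ _)
  have hη1 : η ≤ 1 := (min_le_left _ _).trans (min_le_right _ _)
  have hηW : η ≤ W / 4 := min_le_right _ _
  have hgd : ∀ z : ℂ, W - 3 * δ ≤ |z.re| → z ∈ Gd B δ := by
    intro z hz b hb
    have h1 := h.B_re b hb
    have h2 := Complex.abs_re_le_norm (z - b)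
    rw [Complex.sub_re] at h2
    have h3 := abs_sub_abs_le_abs_sub z.re b.re
    linarith
  have hB : ∀ z : ℂ, W - 2 * η < |z.re| → z ∉ B := fun z hz => gd_notMem hδ (hgd z (by linarith))
  obtain ⟨M₁, hM₁, h1⟩ := left_growth (ρ := ρ) (W₀ := W - 2 * η) hσ hη0 hη1 (by linarith) (X := X) (fun z hz hzre => by
      have h2 : z ∉ B := hB z (by rw [lt_abs]; right; linarith)
      exact ⟨(hX z hz h2).1.differentiableAt, (hX z hz h2).2⟩) (M₀ := M₀) (fun z hz hz1 hz2 => by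
      refine hM₀ z hz (hgd z ?_) ?_
      · rw [le_abs]
        right
        linarith
      · rw [abs_le]
        constructor <;> linarith)
  have hneg : ∀ (z : ℂ) (r : ℝ), z ∈ HP (-σ) r ↔ -z ∈ HP σ r := by
    intro z r
    show r < -σ * z.im ↔ r < σ * (-z).im
    rw [Complex.neg_im]
    constructor <;> intro h3 <;> linarith
  have hσ' : -σ = 1 ∨ -σ = -1 := by
    rcases hσ with h3 | h3
    · right
      rw [h3]
    · left
      rw [h3, neg_neg]
  obtain ⟨M₂, hM₂, h2⟩ := left_growth (ρ := ρ) (W₀ := W - 2 * η) hσ' hη0 hη1 (by linarith) (X := fun z => X (-z)) (fun z hz hzre => by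
      have h3 : -z ∉ B := hB (-z) (by rw [Complex.neg_re, lt_abs]; left; linarith)
      have h4 := hX (-z) ((hneg z ρ).1 hz) h3
      exact ⟨(h4.1.differentiableAt).comp z differentiableAt_id.neg, h4.2⟩) (M₀ := M₀) (fun z hz hz1 hz2 => by
      refine hM₀ (-z) ((hneg z ρ).1 hz) (hgd (-z) ?_) ?_
      · rw [Complex.neg_re, le_abs]
        left
        linarith
      · rw [Complex.neg_re, abs_neg, abs_le]
        constructor <;> linarith)
  refine ⟨max M₁ M₂, hM₁.trans (le_max_left _ _), fun z hz hzW => ?_⟩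
  have hpow : 0 ≤ (1 + ‖z‖) ^ 8 := by positivity
  rcases lt_abs.1 hzW with h3 | h3
  · have h4 := h2 (-z) ((hneg (-z) (ρ + 3)).2 (by rwa [neg_neg])) (by rw [Complex.neg_re]; linarith)
    rw [neg_neg, norm_neg] at h4
    exact h4.trans (mul_le_mul_of_nonneg_right (le_max_right _ _) hpow)
  · exact (h1 z hz (by linarith)).trans (mul_le_mul_of_nonneg_right (le_max_left _ _) hpow)

end Pool.Agent.H62.LR
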