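import Mathlib

/-!
# LR Hole: functions near `1` on an annulus around their only possible zero or pole

* `exists_form`: `Q = (z - b)^m G`, `G` holomorphic without zeros.
* `hole`: a meromorphic function near `1` on an annulus, without zeros and poles outside the centre, is near `1` in the disc.
-/

set_option autoImplicit false

open Topology Filter Metric

noncomputable section

namespace Pool.Agent.H62.LR

theorem exists_form {Q : ℂ → ℂ} {b : ℂ} {R : ℝ} (hR : 0 < R) (hQ : ∀ z ∈ ball b R, z ≠ b → AnalyticAt ℂ Q z ∧ Q z ≠ 0)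
    (hQb : MeromorphicAt Q b) : ∃ (m : ℤ) (G : ℂ → ℂ), DifferentiableOn ℂ G (ball b R) ∧ (∀ z ∈ ball b R, G z ≠ 0) ∧
      ∀ z ∈ ball b R, z ≠ b → Q z = (z - b) ^ m * G z := by
  have hne : ∀ᶠ z in 𝓝[≠] b, Q z ≠ 0 := by
    rw [eventually_nhdsWithin_iff]
    filter_upwards [ball_mem_nhds b hR] with z hz hzb using (hQ z hz hzb).2
  have htop := (meromorphicOrderAt_ne_top_iff_eventually_ne_zero hQb).2 hne
  obtain ⟨g, hg, hg0, hgQ⟩ := (meromorphicOrderAt_ne_top_iff hQb).1 htop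
  set m : ℤ := (meromorphicOrderAt Q b).untop₀ with hm
  set G : ℂ → ℂ := fun z => if z = b then g b else (z - b) ^ (-m) * Q z with hG
  have hGb : G b = g b := if_pos rfl
  have hGne : ∀ z, z ≠ b → G z = (z - b) ^ (-m) * Q z := fun z hz => if_neg hz
  have hGg : G =ᶠ[𝓝 b] g := by
    filter_upwards [eventually_nhdsWithin_iff.1 hgQ] with z hz
    by_cases hzb : z = b
    · rw [hzb, hGb]
    · rw [hGne z hzb, hz hzb, smul_eq_mul, ← mul_assoc, ← zpow_add₀ (sub_ne_zero.2 hzb), neg_add_cancel, zpow_zero, one_mul]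
  refine ⟨m, G, fun z hz => ?_, fun z hz => ?_, fun z hz hzb => ?_⟩
  · by_cases hzb : z = b
    · rw [hzb]
      exact (hGg.differentiableAt_iff.2 hg.differentiableAt).differentiableWithinAt
    · have h1 : G =ᶠ[𝓝 z] fun w => (w - b) ^ (-m) * Q w := by
        filter_upwards [isOpen_ne.mem_nhds hzb] with w hw using hGne w hw
      have h2 : DifferentiableAt ℂ (fun w => (w - b) ^ (-m) * Q w) z := by
        refine DifferentiableAt.mul ?_ (hQ z hz hzb).1.differentiableAt
        exact (differentiableAt_id.sub_const b).zpow (Or.inl (sub_ne_zero.2 hzb))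
      exact (h1.differentiableAt_iff.2 h2).differentiableWithinAt
  · by_cases hzb : z = b
    · rw [hzb, hGb]
      exact hg0
    · rw [hGne z hzb]
      exact mul_ne_zero (zpow_ne_zero _ (sub_ne_zero.2 hzb)) (hQ z hz hzb).2
  · rw [hGne z hzb, ← mul_assoc, ← zpow_add₀ (sub_ne_zero.2 hzb), add_neg_cancel, zpow_zero, one_mul]

private theorem no_order {G : ℂ → ℂ} {b : ℂ} {δ c : ℝ} (hδ : 0 < δ) (hc : 0 < c) (hG : DifferentiableOn ℂ G (ball b (4 * δ))) {m : ℕ} (hm : 1 ≤ m)
    (h1 : ∀ z, ‖z - b‖ = δ → c / δ ^ m ≤ ‖G z‖) (h2 : ∀ z, ‖z - b‖ = 7 / 2 * δ → ‖G z‖ ≤ 3 * c / (7 / 2 * δ) ^ m) : False := by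
  have hz1 : ‖(b + (δ : ℂ)) - b‖ = δ := by
    rw [add_sub_cancel_left, Complex.norm_real, Real.norm_of_nonneg hδ.le]
  have h3 := h1 _ hz1
  have hd : DiffContOnCl ℂ G (ball b (7 / 2 * δ)) := by
    refine DifferentiableOn.diffContOnCl ?_
    rw [closure_ball _ (by positivity)]
    exact hG.mono (closedBall_subset_ball (by linarith))
  have h4 : ‖G (b + (δ : ℂ))‖ ≤ 3 * c / (7 / 2 * δ) ^ m := by
    refine Complex.norm_le_of_forall_mem_frontier_norm_le isBounded_ball hd (fun w hw => ?_) (z := b + (δ : ℂ)) ?_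
    · rw [frontier_ball _ (by positivity), mem_sphere, dist_eq_norm] at hw
      exact h2 w hw
    · rw [closure_ball _ (by positivity), mem_closedBall, dist_eq_norm, hz1]
      linarith
  have h5 := h3.trans h4
  rw [div_le_div_iff₀ (by positivity) (by positivity), mul_pow] at h5
  have h6 : (7 / 2 : ℝ) ^ 1 ≤ (7 / 2 : ℝ) ^ m := pow_le_pow_right₀ (by norm_num) hm
  have h7 : 0 < c * δ ^ m := by positivity
  nlinarith

/-- A meromorphic function near `1` on an annulus, without zeros and poles outside the centre, is near `1` in the disc. -/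
theorem hole {Q : ℂ → ℂ} {b : ℂ} {δ ε : ℝ} (hδ : 0 < δ) (hε : ε ≤ 1 / 2) (hQ : ∀ z ∈ ball b (4 * δ), z ≠ b → AnalyticAt ℂ Q z ∧ Q z ≠ 0)
    (hQb : MeromorphicAt Q b) (hε' : ∀ z, δ ≤ ‖z - b‖ → ‖z - b‖ < 4 * δ → ‖Q z - 1‖ ≤ ε) :
    ∃ H : ℂ → ℂ, DifferentiableOn ℂ H (ball b (4 * δ)) ∧ (∀ z ∈ ball b (4 * δ), z ≠ b → H z = Q z) ∧ ∀ z ∈ ball b (4 * δ), ‖H z - 1‖ ≤ ε := by
  obtain ⟨m, G, hG, hG0, hGQ⟩ := exists_form (by positivity) hQ hQb
  have hlow : ∀ z, δ ≤ ‖z - b‖ → ‖z - b‖ < 4 * δ → 1 / 2 ≤ ‖Q z‖ ∧ ‖Q z‖ ≤ 3 / 2 := by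
    intro z h1 h2
    have h3 := hε' z h1 h2
    have h4 : ‖Q z‖ ≤ ‖Q z - 1‖ + 1 := by
      have := norm_add_le (Q z - 1) 1
      rwa [sub_add_cancel, norm_one] at this
    have h5 : 1 ≤ ‖Q z - 1‖ + ‖Q z‖ := by
      have := norm_add_le (1 - Q z) (Q z)
      rwa [sub_add_cancel, norm_one, norm_sub_rev] at this
    exact ⟨by linarith, by linarith⟩
  have hpt : ∀ z, δ ≤ ‖z - b‖ → ‖z - b‖ < 4 * δ → z ∈ ball b (4 * δ) ∧ z ≠ b := by
    intro z h1 h2
    refine ⟨by rwa [mem_ball, dist_eq_norm], ?_⟩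
    rintro rfl
    rw [sub_self, norm_zero] at h1
    linarith
  have hm0 : m = 0 := by
    rcases lt_trichotomy m 0 with hm | hm | hm
    · exfalso
      obtain ⟨n, hn⟩ : ∃ n : ℕ, m = -(n : ℤ) := ⟨m.natAbs, by omega⟩
      have hn1 : 1 ≤ n := by omega
      refine no_order (G := fun z => (G z)⁻¹) (c := 2 / 3) hδ (by norm_num) (fun z hz => ((hG z hz).inv (hG0 z hz))) hn1 (fun z hz => ?_) (fun z hz => ?_)
      · obtain ⟨h1, h2⟩ := hpt z hz.ge (by linarith)
        have h3 := hGQ z h1 h2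
        have h4 := (hlow z hz.ge (by linarith)).2
        have h5 : ‖Q z‖ = ‖G z‖ / δ ^ n := by
          rw [h3, norm_mul, norm_zpow, hz, hn, zpow_neg, zpow_natCast]
          field_simp
        rw [h5, div_le_iff₀ (by positivity)] at h4
        have h6 : 0 < ‖G z‖ := norm_pos_iff.2 (hG0 z h1)
        rw [norm_inv, div_le_iff₀ (by positivity), inv_mul_eq_div, le_div_iff₀ h6]
        linarith
      · have hz1 : δ ≤ ‖z - b‖ := by rw [hz]; linarith
        have hz2 : ‖z - b‖ < 4 * δ := by rw [hz]; linarith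
        obtain ⟨h1, h2⟩ := hpt z hz1 hz2
        have h3 := hGQ z h1 h2
        have h4 := (hlow z hz1 hz2).1
        have h5 : ‖Q z‖ = ‖G z‖ / (7 / 2 * δ) ^ n := by
          rw [h3, norm_mul, norm_zpow, hz, hn, zpow_neg, zpow_natCast]
          field_simp
        rw [h5, le_div_iff₀ (by positivity)] at h4
        have h6 : 0 < ‖G z‖ := norm_pos_iff.2 (hG0 z h1)
        rw [norm_inv, le_div_iff₀ (by positivity), inv_mul_eq_div, div_le_iff₀ h6]
        linarith
    · exact hm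
    · exfalso
      obtain ⟨n, hn⟩ : ∃ n : ℕ, m = (n : ℤ) := ⟨m.natAbs, by omega⟩
      have hn1 : 1 ≤ n := by omega
      refine no_order (G := G) (c := 1 / 2) hδ (by norm_num) hG hn1 (fun z hz => ?_) (fun z hz => ?_)
      · obtain ⟨h1, h2⟩ := hpt z hz.ge (by linarith)
        have h3 := hGQ z h1 h2
        have h4 := (hlow z hz.ge (by linarith)).1
        rw [h3, norm_mul, norm_zpow, hz, hn, zpow_natCast] at h4
        rw [div_le_iff₀ (by positivity)]
        linarith
      · have hz1 : δ ≤ ‖z - b‖ := by rw [hz]; linarith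
        have hz2 : ‖z - b‖ < 4 * δ := by rw [hz]; linarith
        obtain ⟨h1, h2⟩ := hpt z hz1 hz2
        have h3 := hGQ z h1 h2
        have h4 := (hlow z hz1 hz2).2
        rw [h3, norm_mul, norm_zpow, hz, hn, zpow_natCast] at h4
        rw [le_div_iff₀ (by positivity)]
        linarith
  have hGQ' : ∀ z ∈ ball b (4 * δ), z ≠ b → G z = Q z := by
    intro z hz hzb
    rw [hGQ z hz hzb, hm0, zpow_zero, one_mul]
  refine ⟨G, hG, hGQ', fun z hz => ?_⟩
  rcases le_or_gt δ ‖z - b‖ with h1 | h1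
  · have h2 : ‖z - b‖ < 4 * δ := by rwa [mem_ball, dist_eq_norm] at hz
    rw [hGQ' z hz (hpt z h1 h2).2]
    exact hε' z h1 h2
  · have hd : DiffContOnCl ℂ (fun z => G z - 1) (ball b δ) := by
      refine DifferentiableOn.diffContOnCl ?_
      rw [closure_ball _ hδ.ne']
      exact (hG.mono (closedBall_subset_ball (by linarith))).sub_const 1
    refine Complex.norm_le_of_forall_mem_frontier_norm_le isBounded_ball hd (fun w hw => ?_) (z := z) ?_
    · rw [frontier_ball _ hδ.ne', mem_sphere, dist_eq_norm] at hw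
      obtain ⟨h2, h3⟩ := hpt w hw.ge (by linarith)
      rw [hGQ' w h2 h3]
      exact hε' w hw.ge (by linarith)
    · rw [closure_ball _ hδ.ne', mem_closedBall, dist_eq_norm]
      exact h1.le

end Pool.Agent.H62.LR
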