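import Pool.Agent.H62.LR.EndG

/-!
# LR LAI: case (I), no member is near the section `0`

* `exp_zero`: a number of norm `< 2 π` with exponential `1` is `0`.
* `translate facts` for `B`, `C`.
* `la_I`.
-/

set_option autoImplicit false

open Topology Filter Metric

noncomputable section

namespace Pool.Agent.H62.LR

open Pool.Agent.H87.LU (Gd HP isOpen_HP convex_HP HP_anti gd_notMem)

variable {p : ℝ} {B : Set ℂ} {δ W : ℝ} {𝓛 : Set (ℂ → ℂ)} {C A : Set ℂ}

theorem exp_zero {w : ℂ} (h1 : Complex.exp w = 1) (h2 : ‖w‖ < 6) : w = 0 := by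
  obtain ⟨n, hn⟩ := Complex.exp_eq_one_iff.1 h1
  by_contra hne
  have hn0 : n ≠ 0 := by
    rintro rfl
    rw [Int.cast_zero, zero_mul] at hn
    exact hne hn
  have h3 : ‖w‖ = |(n : ℝ)| * (2 * Real.pi) := by
    rw [hn, norm_mul, norm_mul, Complex.norm_I, mul_one, Complex.norm_intCast]
    congr 1
    rw [norm_mul, Complex.norm_real, Real.norm_of_nonneg Real.pi_pos.le]
    simp
  have h4 : (1 : ℝ) ≤ |(n : ℝ)| := by
    rw [← Int.cast_abs]
    exact_mod_cast Int.one_le_abs hn0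
  have h5 := Real.pi_gt_three
  nlinarith

/-- the value of the exponential of a continuous function at a point which is a limit of good points -/
theorem exp_of_tendsto {J Q : ℂ → ℂ} {b a : ℂ} (hJ : ContinuousAt J b) (he : ∀ᶠ z in 𝓝[≠] b, Complex.exp (J z) = Q z) (hQ : Tendsto Q (𝓝[≠] b) (𝓝 a)) :
    Complex.exp (J b) = a := by
  have h1 : Tendsto (fun z => Complex.exp (J z)) (𝓝[≠] b) (𝓝 (Complex.exp (J b))) :=
    (Complex.continuous_exp.continuousAt.comp hJ).tendsto.mono_left nhdsWithin_le_nhds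
  exact tendsto_nhds_unique (h1.congr' he) hQ

/-- near a point of `B` there are no other points of `B` -/
theorem BaseD.punct (h : BaseD p B δ W 𝓛 C A) {b : ℂ} (hb : b ∈ B) : ∀ᶠ z in 𝓝[≠] b, z ∉ B := by
  have hδ := h.δ_pos
  rw [eventually_nhdsWithin_iff]
  filter_upwards [ball_mem_nhds b (show 0 < 4 * δ by positivity)] with z hz hzb
  exact h.notMem hb hz hzb

/-- If `f` is near `0` on the annulus around `b ∈ B` and has no zeros and no values `1` outside `b`, then it has a limit of norm at most `ε` at `b`. -/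
theorem small_at (h : BaseD p B δ W 𝓛 C A) {σ ρ ε : ℝ} (hσ : σ = 1 ∨ σ = -1) (hε : ε ≤ 1 / 2) {f : ℂ → ℂ} (hfm : ∀ z ∈ HP σ ρ, MeromorphicAt f z)
    (hf : ∀ z ∈ HP σ ρ, z ∉ B → AnalyticAt ℂ f z ∧ f z ≠ 1) (h1 : ∀ z ∈ HP σ ρ, z ∈ Gd B δ → |z.re| ≤ W → ‖f z‖ ≤ ε) {b : ℂ} (hb : b ∈ B)
    (hbH : b ∈ HP σ (ρ + 4 * δ)) : ∃ a : ℂ, ‖a‖ ≤ ε ∧ Tendsto f (𝓝[≠] b) (𝓝 a) := by
  have hδ := h.δ_pos
  have hsub := HP_ball hσ hbH
  obtain ⟨H, hHd, hHQ, hH1⟩ := hole (Q := fun z => 1 - f z) hδ hε (fun z hz hzb => by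
      have h2 := hf z (hsub hz) (h.notMem hb hz hzb)
      exact ⟨analyticAt_const.sub h2.1, sub_ne_zero.2 (Ne.symm h2.2)⟩)
    ((MeromorphicAt.const 1 b).sub (hfm b (hsub (mem_ball_self (by positivity))))) fun z hz1 hz2 => by
      have hz : z ∈ ball b (4 * δ) := by rwa [mem_ball, dist_eq_norm]
      have h2 := h1 z (hsub hz) (h.mem_gd hb hz hz1) (h.re_le hb hz)
      rw [sub_sub_cancel_left, norm_neg]
      exact h2
  have hbb : b ∈ ball b (4 * δ) := mem_ball_self (by positivity)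
  refine ⟨1 - H b, ?_, ?_⟩
  · rw [norm_sub_rev]
    exact hH1 b hbb
  · have h2 : Tendsto (fun z => 1 - H z) (𝓝[≠] b) (𝓝 (1 - H b)) :=
      ((continuousAt_const.sub (hHd.differentiableAt (isOpen_ball.mem_nhds hbb)).continuousAt).tendsto).mono_left nhdsWithin_le_nhds
    refine h2.congr' ?_
    rw [EventuallyEq, eventually_nhdsWithin_iff]
    filter_upwards [isOpen_ball.mem_nhds hbb] with z hz hzb
    rw [hHQ z hz hzb]
    ring

/-- a point of the half plane, far to the right -/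
theorem exists_good (h : BaseD p B δ W 𝓛 C A) {σ : ℝ} (hσ : σ = 1 ∨ σ = -1) (ρ : ℝ) : ∃ z : ℂ, z ∈ HP σ ρ ∧ z ∈ Gd B δ ∧ |z.re| ≤ W ∧ z ∉ B := by
  have hδ := h.δ_pos
  have hW := h.W_pos
  refine ⟨⟨W, σ * (ρ + 1)⟩, ?_, ?_, ?_, ?_⟩
  · show ρ < σ * (σ * (ρ + 1))
    rcases hσ with h1 | h1 <;> rw [h1] <;> linarith
  · intro b hb
    have h1 := h.B_re b hb
    have h2 := Complex.abs_re_le_norm ((⟨W, σ * (ρ + 1)⟩ : ℂ) - b)
    rw [Complex.sub_re] at h2
    have h3 : W - b.re ≤ |W - b.re| := le_abs_self _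
    have h4 := le_abs_self b.re
    change |W - b.re| ≤ _ at h2
    linarith
  · show |W| ≤ W
    rw [abs_of_pos hW]
  · intro hb
    have h1 := h.B_re _ hb
    change |W| + 4 * δ ≤ W at h1
    rw [abs_of_pos hW] at h1
    linarith

/-- Case (I): no member is near the section `0`. -/
theorem la_I (h : BaseD p B δ W ∅ C A) {b₀ : ℂ} (hb₀ : b₀ ∈ C) :
    ∃ ε : ℝ, 0 < ε ∧ ∀ σ ρ : ℝ, (σ = 1 ∨ σ = -1) → ∀ f ∈ Tm B ∅ C A (HP σ ρ), ¬ ∀ z ∈ HP σ ρ, z ∈ Gd B δ → |z.re| ≤ W → ‖f z‖ ≤ ε := by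
  have hδ := h.δ_pos
  have hp := h.p_pos
  -- the elements of `A` different from `0` are not small
  obtain ⟨ε₀, hε₀, hA⟩ : ∃ ε₀ : ℝ, 0 < ε₀ ∧ ∀ a ∈ A, a ≠ 0 → ε₀ < ‖a‖ := by
    have hfin : (A \ {0}).Finite := h.A_fin.subset Set.sdiff_subset
    rcases (A \ {0}).eq_empty_or_nonempty with h1 | h1
    · refine ⟨1, one_pos, fun a ha ha0 => ?_⟩
      have : a ∈ A \ {0} := ⟨ha, ha0⟩
      rw [h1] at this
      exact absurd this (Set.notMem_empty a)
    · obtain ⟨a₀, ha₀, hmin⟩ := hfin.exists_minimalFor (fun a => ‖a‖) _ h1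
      have hpos : 0 < ‖a₀‖ := norm_pos_iff.2 ha₀.2
      refine ⟨‖a₀‖ / 2, by positivity, fun a ha ha0 => ?_⟩
      have h2 : ‖a₀‖ ≤ ‖a‖ := by
        by_contra hcon
        push Not at hcon
        exact absurd (hmin ⟨ha, ha0⟩ hcon.le) (not_le.2 hcon)
      linarith
  refine ⟨min ε₀ (1 / 2), lt_min hε₀ (by norm_num), fun σ ρ hσ f hf hsm => ?_⟩
  obtain ⟨hfm, hfB, hfC⟩ := hf
  have hε2 : min ε₀ (1 / 2) ≤ (1 / 2 : ℝ) := min_le_right _ _
  -- growth
  obtain ⟨M, hM, hg⟩ := end_growth h hσ (X := f) (ρ := ρ) (fun z hz hzB => ⟨(hfB z hz hzB).1, (hfB z hz hzB).2.1, (hfB z hz hzB).2.2.1⟩) hsm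
  have hρ3 : HP σ (ρ + 3) ⊆ HP σ ρ := HP_anti (by linarith)
  obtain ⟨J, ρ', M', k', hρ', hM', hJd, hJe, hJ2, hJb⟩ := log_fn h hσ (ρ := ρ + 3) (Q := fun z => 1 - f z)
    (fun z hz => (MeromorphicAt.const 1 z).sub (hfm z (hρ3 hz)))
    (fun z hz hzB => ⟨analyticAt_const.sub (hfB z (hρ3 hz) hzB).1, sub_ne_zero.2 (Ne.symm (hfB z (hρ3 hz) hzB).2.2.1)⟩)
    (fun z hz hzG hzW => by
      rw [sub_sub_cancel_left, norm_neg]
      exact (hsm z (hρ3 hz) hzG hzW).trans hε2) (M := M + 1) (k := 8) (by linarith) (fun z hz hzW => by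
      have h1 := hg z hz hzW
      have hzB : z ∉ B := by
        intro hzB
        have := h.B_re z hzB
        linarith
      have hf0 : 0 < ‖f z‖ := norm_pos_iff.2 (hfB z (hρ3 hz) hzB).2.1
      have hq0 : 0 < ‖1 - f z‖ := norm_pos_iff.2 (sub_ne_zero.2 (Ne.symm (hfB z (hρ3 hz) hzB).2.2.1))
      have h2 : ‖1 - f z‖ ≤ 1 + ‖f z‖ := (norm_sub_le _ _).trans (by rw [norm_one])
      have h3 : (1 : ℝ) ≤ (1 + ‖z‖) ^ 8 := one_le_pow₀ (by linarith [norm_nonneg z])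
      have h4 : Real.log ‖1 - f z‖ ≤ 1 + M * (1 + ‖z‖) ^ 8 := by
        rcases le_or_gt ‖f z‖ 1 with h5 | h5
        · have h6 : Real.log ‖1 - f z‖ ≤ ‖1 - f z‖ - 1 := Real.log_le_sub_one_of_pos hq0
          have h7 : 0 ≤ M * (1 + ‖z‖) ^ 8 := by positivity
          linarith
        · have h6 : ‖1 - f z‖ ≤ 2 * ‖f z‖ := by linarith
          have h7 : Real.log ‖1 - f z‖ ≤ Real.log 2 + Real.log ‖f z‖ := by
            rw [← Real.log_mul (by norm_num) hf0.ne']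
            exact Real.log_le_log hq0 h6
          have h8 : Real.log 2 ≤ 1 := by
            have := Real.log_le_sub_one_of_pos (show (0 : ℝ) < 2 by norm_num)
            linarith
          linarith
      linarith)
  set ρ₂ : ℝ := max ρ' (ρ + 4 * δ) with hρ₂
  have hsub' : HP σ ρ₂ ⊆ HP σ ρ' := HP_anti (le_max_left _ _)
  have hsub4 : HP σ ρ₂ ⊆ HP σ (ρ + 4 * δ) := HP_anti (le_max_right _ _)
  have hzero := zero_hp (J := J) (a := b₀) (ρ := ρ₂) hσ hp (hJd.mono hsub') hM' (fun z hz => hJb z (hsub' hz)) (fun l hl => by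
    set b : ℂ := b₀ + p * l * Complex.I with hb
    have hbC : b ∈ C := h.C_inv b₀ hb₀ l
    have hbB : b ∈ B := h.C_sub hbC
    have hb4 : b ∈ HP σ (ρ + 4 * δ) := hsub4 hl
    have hbρ : b ∈ HP σ ρ := HP_anti (by linarith) hb4
    obtain ⟨a, ha, hlim⟩ := small_at h hσ hε2 hfm (fun z hz hzB => ⟨(hfB z hz hzB).1, (hfB z hz hzB).2.2.1⟩) hsm hbB hb4
    have haA : a ∈ A := hfC b hbρ hbC a hlim
    have ha0 : a = 0 := by
      by_contra hne
      have := hA a haA hne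
      exact absurd (ha.trans (min_le_left _ _)) (not_le.2 this)
    rw [ha0] at hlim
    have h1 : Tendsto (fun z => 1 - f z) (𝓝[≠] b) (𝓝 1) := by
      have := hlim.const_sub 1
      rwa [sub_zero] at this
    have hJc : ContinuousAt J b := (hJd.differentiableAt ((isOpen_HP _ _).mem_nhds (hsub' hl))).continuousAt
    have h2 := exp_of_tendsto hJc ?_ h1
    · refine exp_zero h2 ?_
      have := hJ2 b (hsub' hl) (h.re_le hbB (mem_ball_self (by positivity)))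
      linarith
    · filter_upwards [h.punct hbB, nhdsWithin_le_nhds ((isOpen_HP _ _).mem_nhds (hsub' hl))] with z hz1 hz2
      exact hJe z hz2 hz1)
  obtain ⟨z, hz, -, -, hzB⟩ := exists_good h hσ ρ₂
  have h1 := hJe z (hsub' hz) hzB
  rw [hzero z hz, Complex.exp_zero] at h1
  have h2 : f z = 0 := by linear_combination h1
  exact (hfB z (HP_anti (by linarith) (hsub4 hz)) hzB).2.1 h2

end Pool.Agent.H62.LR
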