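import Pool.Agent.H62.LR.Kp
import Pool.Agent.H62.LR.LAI
import Pool.Agent.H46.LR.Sc

/-!
# LR Klein: the symmetries of the family and the neighbourhoods of the sections

* `strip_pos`, `strip_le_klein`: periodic functions on the good part of the strip.
* `near_N`, `near_I`: a member near a section is moved to a member near `0`.
-/

set_option autoImplicit false

open Topology Filter Metric

noncomputable section

namespace Pool.Agent.H62.LR

open Pool.Agent.H62.EF (MN pr)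
open Pool.Agent.H87.LU (Gd HP isClosed_gd gd_notMem)

variable {p : ℝ} {B : Set ℂ} {δ W : ℝ} {𝓛 : Set (ℂ → ℂ)} {C A : Set ℂ}

/-- a positive periodic function is bounded below on the good part of the strip -/
theorem strip_pos (h : BaseD p B δ W 𝓛 C A) {G : ℂ → ℝ} (hper : ∀ z, G (z + p * Complex.I) = G z)
    (hc : ∀ z ∈ Gd B δ, |z.re| ≤ W → ContinuousAt G z) (hpos : ∀ z ∈ Gd B δ, |z.re| ≤ W → 0 < G z) :
    ∃ d : ℝ, 0 < d ∧ ∀ z ∈ Gd B δ, |z.re| ≤ W → d ≤ G z := by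
  have hp := h.p_pos
  have hδ := h.δ_pos
  set K : Set ℂ := {z | z ∈ Gd B δ ∧ |z.re| ≤ W ∧ 0 ≤ z.im ∧ z.im ≤ p} with hK
  have hKc : IsCompact K := by
    have h1 : IsClosed K := by
      have e : K = Gd B δ ∩ ({z : ℂ | |z.re| ≤ W} ∩ ({z : ℂ | 0 ≤ z.im} ∩ {z : ℂ | z.im ≤ p})) := by
        ext z
        exact Iff.rfl
      rw [e]
      exact (isClosed_gd δ).inter ((isClosed_le (continuous_abs.comp Complex.continuous_re) continuous_const).inter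
        ((isClosed_le continuous_const Complex.continuous_im).inter (isClosed_le Complex.continuous_im continuous_const)))
    refine (isCompact_closedBall (0 : ℂ) (W + p)).of_isClosed_subset h1 fun z hz => ?_
    rw [mem_closedBall_zero_iff]
    refine (Complex.norm_le_abs_re_add_abs_im z).trans ?_
    have := abs_of_nonneg hz.2.2.1
    linarith [hz.2.1, hz.2.2.2]
  have hred : ∀ z ∈ Gd B δ, |z.re| ≤ W → ∃ w ∈ K, G w = G z := by
    intro z hz hzW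
    set l : ℤ := ⌊z.im / p⌋ with hl
    have h1 := Int.floor_le (z.im / p)
    have h2 := Int.lt_floor_add_one (z.im / p)
    rw [le_div_iff₀ hp] at h1
    rw [div_lt_iff₀ hp] at h2
    refine ⟨z + ((-l : ℤ) : ℂ) * (p * Complex.I), ⟨?_, ?_, ?_, ?_⟩, ?_⟩
    · intro b hb
      have h3 := hz (b + p * l * Complex.I) (h.B_inv b hb l)
      have h4 : z - (b + p * l * Complex.I) = z + ((-l : ℤ) : ℂ) * (p * Complex.I) - b := by
        push_cast
        ring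
      rwa [h4] at h3
    · have h3 : (z + ((-l : ℤ) : ℂ) * (p * Complex.I)).re = z.re := by simp
      rw [h3]
      exact hzW
    · have h3 : (z + ((-l : ℤ) : ℂ) * (p * Complex.I)).im = z.im - l * p := by
        simp
        ring
      rw [h3]
      linarith
    · have h3 : (z + ((-l : ℤ) : ℂ) * (p * Complex.I)).im = z.im - l * p := by
        simp
        ring
      rw [h3]
      nlinarith
    · have hP : Function.Periodic G (p * Complex.I) := hper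
      exact hP.int_mul (-l) z
  rcases K.eq_empty_or_nonempty with h1 | h1
  · refine ⟨1, one_pos, fun z hz hzW => ?_⟩
    obtain ⟨w, hw, -⟩ := hred z hz hzW
    rw [h1] at hw
    exact absurd hw (Set.notMem_empty w)
  · obtain ⟨w₀, hw₀, hmin⟩ := hKc.exists_isMinOn h1 fun z hz => (hc z hz.1 hz.2.1).continuousWithinAt
    refine ⟨G w₀, hpos w₀ hw₀.1 hw₀.2.1, fun z hz hzW => ?_⟩
    obtain ⟨w, hw, hwz⟩ := hred z hz hzW
    rw [← hwz]
    exact hmin hw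

theorem strip_le_klein (h : BaseD p B δ W 𝓛 C A) {F : ℂ → ℂ} (hper : ∀ z, F (z + p * Complex.I) = F z)
    (hc : ∀ z ∈ Gd B δ, |z.re| ≤ W → ContinuousAt F z) : ∃ K : ℝ, 0 < K ∧ ∀ z ∈ Gd B δ, |z.re| ≤ W → ‖F z‖ ≤ K := by
  obtain ⟨d, hd, hd'⟩ := strip_pos h (G := fun z => 1 / (1 + ‖F z‖)) (fun z => by simp only [hper z]) (fun z hz hzW => by
    have h1 := (hc z hz hzW).norm
    exact continuousAt_const.div (continuousAt_const.add h1) (by positivity)) (fun z _ _ => by positivity)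
  refine ⟨1 / d, by positivity, fun z hz hzW => ?_⟩
  have h1 := hd' z hz hzW
  rw [le_div_iff₀ (by positivity)] at h1
  rw [le_div_iff₀ hd]
  nlinarith [norm_nonneg (F z)]

theorem BaseD.changeA (h : BaseD p B δ W 𝓛 C A) {A' : Set ℂ} (hf : A'.Finite) (h0 : (0 : ℂ) ∈ A') (h1 : (1 : ℂ) ∈ A') : BaseD p B δ W 𝓛 C A' :=
  { h with A_fin := hf, A_zero := h0, A_one := h1 }

/-! ## case (N) -/

theorem tm_N_inf (h : BaseD p B δ W 𝓛 C A) {L : ℂ → ℂ} (hL : L ∈ 𝓛) {Ω : Set ℂ} {f : ℂ → ℂ} (hf : f ∈ Tm B 𝓛 ∅ A Ω) :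
    (fun z => L z / f z) ∈ Tm B 𝓛 ∅ A Ω := by
  refine ⟨fun z hz => (h.L_mer L hL z).div (hf.1 z hz), fun z hz hzB => ?_, fun b _ hb => absurd hb (Set.notMem_empty b)⟩
  obtain ⟨h1, h2, h3, h4⟩ := hf.2.1 z hz hzB
  obtain ⟨h5, h6, h7⟩ := h.L_an L hL z hzB
  have h8 := h4 L hL
  refine ⟨h5.div h1 h2, div_ne_zero h6 h2, ?_, fun L' hL' => ?_⟩
  · rw [Ne, div_eq_one_iff_eq h2]
    exact Ne.symm h8
  · rw [h.sub hL' hL, Ne, div_eq_iff h2]
    intro h9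
    exact h3 (mul_left_cancel₀ h6 (by rw [mul_one]; exact h9.symm))

theorem tm_N_one (h : BaseD p B δ W 𝓛 C A) {L : ℂ → ℂ} (hL : L ∈ 𝓛) {Ω : Set ℂ} {f : ℂ → ℂ} (hf : f ∈ Tm B 𝓛 ∅ A Ω) :
    (fun z => L z * (f z - 1) / (f z - L z)) ∈ Tm B 𝓛 ∅ A Ω := by
  refine ⟨fun z hz => ((h.L_mer L hL z).mul ((hf.1 z hz).sub (MeromorphicAt.const 1 z))).div ((hf.1 z hz).sub (h.L_mer L hL z)),
    fun z hz hzB => ?_, fun b _ hb => absurd hb (Set.notMem_empty b)⟩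
  obtain ⟨h1, h2, h3, h4⟩ := hf.2.1 z hz hzB
  obtain ⟨h5, h6, h7⟩ := h.L_an L hL z hzB
  have h8 : f z - L z ≠ 0 := sub_ne_zero.2 (h4 L hL)
  have h9 : f z - 1 ≠ 0 := sub_ne_zero.2 h3
  refine ⟨(h5.mul (h1.sub analyticAt_const)).div (h1.sub h5) h8, div_ne_zero (mul_ne_zero h6 h9) h8, ?_, fun L' hL' => ?_⟩
  · rw [Ne, div_eq_one_iff_eq h8]
    intro h10
    have h11 : (L z - 1) * f z = 0 := by linear_combination h10
    rcases mul_eq_zero.1 h11 with h12 | h12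
    · exact h7 (sub_eq_zero.1 h12)
    · exact h2 h12
  · rw [h.sub hL' hL, Ne, div_eq_iff h8]
    intro h10
    have h11 := mul_left_cancel₀ h6 h10
    exact h7 (by linear_combination h11)

theorem tm_N_L (h : BaseD p B δ W 𝓛 C A) {L : ℂ → ℂ} (hL : L ∈ 𝓛) {Ω : Set ℂ} {f : ℂ → ℂ} (hf : f ∈ Tm B 𝓛 ∅ A Ω) :
    (fun z => (f z - L z) / (f z - 1)) ∈ Tm B 𝓛 ∅ A Ω := by
  refine ⟨fun z hz => ((hf.1 z hz).sub (h.L_mer L hL z)).div ((hf.1 z hz).sub (MeromorphicAt.const 1 z)),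
    fun z hz hzB => ?_, fun b _ hb => absurd hb (Set.notMem_empty b)⟩
  obtain ⟨h1, h2, h3, h4⟩ := hf.2.1 z hz hzB
  obtain ⟨h5, h6, h7⟩ := h.L_an L hL z hzB
  have h8 : f z - L z ≠ 0 := sub_ne_zero.2 (h4 L hL)
  have h9 : f z - 1 ≠ 0 := sub_ne_zero.2 h3
  refine ⟨(h1.sub h5).div (h1.sub analyticAt_const) h9, div_ne_zero h8 h9, ?_, fun L' hL' => ?_⟩
  · rw [Ne, div_eq_one_iff_eq h9]
    intro h10
    exact h7 (by linear_combination -h10)
  · rw [h.sub hL' hL, Ne, div_eq_iff h9]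
    intro h10
    have h11 : (1 - L z) * f z = 0 := by linear_combination h10
    rcases mul_eq_zero.1 h11 with h12 | h12
    · exact h7 (sub_eq_zero.1 h12).symm
    · exact h2 h12

/-- a member near a section is moved to a member near `0` -/
theorem near_N (h : BaseD p B δ W 𝓛 C A) {L : ℂ → ℂ} (hL : L ∈ 𝓛) {s : ℂ → MN 1} (hs : s ∈ Sec 𝓛) {ε : ℝ} (hε : 0 < ε) :
    ∃ d : ℝ, 0 < d ∧ ∀ (Ω : Set ℂ), ∀ f ∈ Tm B 𝓛 ∅ A Ω, ∃ g ∈ Tm B 𝓛 ∅ A Ω,
      ∀ z ∈ Ω, z ∈ Gd B δ → |z.re| ≤ W → dist (kp (f z)) (s z) ≤ d → ‖g z‖ ≤ ε := by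
  have hδ := h.δ_pos
  obtain ⟨K, hK, hKb⟩ := strip_le_klein h (F := L) (h.L_per L hL) fun z hz _ => (h.L_an L hL z (gd_notMem hδ hz)).1.continuousAt
  obtain ⟨m, hm, hmb⟩ := strip_pos h (G := fun z => ‖1 - L z‖) (fun z => by simp only [h.L_per L hL z]) (fun z hz _ =>
      (continuousAt_const.sub (h.L_an L hL z (gd_notMem hδ hz)).1.continuousAt).norm)
    fun z hz _ => norm_pos_iff.2 (sub_ne_zero.2 (Ne.symm (h.L_an L hL z (gd_notMem hδ hz)).2.2))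
  rw [mem_sec] at hs
  rcases hs with rfl | rfl | rfl | ⟨L', hL', rfl⟩
  · obtain ⟨d, hd, hd'⟩ := Cho.large_of_dist (ε := ε / K) (by positivity)
    refine ⟨d, hd, fun Ω f hf => ⟨_, tm_N_inf h hL hf, fun z hz hzG hzW hdist => ?_⟩⟩
    have h1 := hd' _ hdist
    have h2 := hKb z hzG hzW
    have h3 : 0 < ‖f z‖ := norm_pos_iff.2 (hf.2.1 z hz (gd_notMem hδ hzG)).2.1
    rw [norm_div, div_le_iff₀ h3]
    rw [div_mul_eq_mul_div, le_div_iff₀ hK, one_mul] at h1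
    linarith
  · obtain ⟨d, hd, hd'⟩ := Cho.close_of_dist 0 hε
    refine ⟨d, hd, fun Ω f hf => ⟨f, hf, fun z hz hzG hzW hdist => ?_⟩⟩
    have h1 := hd' (f z) 0 (by rw [norm_zero]) hdist
    rwa [sub_zero] at h1
  · set e : ℝ := min (m / 2) (ε * m / (2 * K)) with he
    have he0 : 0 < e := lt_min (by positivity) (by positivity)
    obtain ⟨d, hd, hd'⟩ := Cho.close_of_dist 1 he0
    refine ⟨d, hd, fun Ω f hf => ⟨_, tm_N_one h hL hf, fun z hz hzG hzW hdist => ?_⟩⟩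
    have h1 := hd' (f z) 1 (by rw [norm_one]) hdist
    have h2 := hKb z hzG hzW
    have h3 := hmb z hzG hzW
    have h4 : m / 2 ≤ ‖f z - L z‖ := by
      have h5 : (1 : ℂ) - L z = (f z - L z) - (f z - 1) := by ring
      rw [h5] at h3
      have h6 := norm_sub_le (f z - L z) (f z - 1)
      have h7 : e ≤ m / 2 := min_le_left _ _
      linarith
    have h8 : e ≤ ε * m / (2 * K) := min_le_right _ _
    have h9 : ‖f z - 1‖ * (2 * K) ≤ ε * m := by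
      have h10 := h1.trans h8
      rwa [le_div_iff₀ (by positivity)] at h10
    rw [norm_div, norm_mul, div_le_iff₀ (by linarith)]
    calc ‖L z‖ * ‖f z - 1‖ ≤ K * ‖f z - 1‖ := mul_le_mul_of_nonneg_right h2 (norm_nonneg _)
      _ ≤ ε * (m / 2) := by linarith
      _ ≤ ε * ‖f z - L z‖ := mul_le_mul_of_nonneg_left h4 hε.le
  · have hLL : L' = L := h.sub hL' hL
    subst hLL
    set e : ℝ := min (m / 2) (ε * m / 2) with he
    have he0 : 0 < e := lt_min (by positivity) (by positivity)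
    obtain ⟨d, hd, hd'⟩ := Cho.close_of_dist K he0
    refine ⟨d, hd, fun Ω f hf => ⟨_, tm_N_L h hL' hf, fun z hz hzG hzW hdist => ?_⟩⟩
    have h1 := hd' (f z) (L' z) (hKb z hzG hzW) hdist
    have h3 := hmb z hzG hzW
    have h4 : m / 2 ≤ ‖f z - 1‖ := by
      have h5 : (1 : ℂ) - L' z = (f z - L' z) - (f z - 1) := by ring
      rw [h5] at h3
      have h6 := norm_sub_le (f z - L' z) (f z - 1)
      have h7 : e ≤ m / 2 := min_le_left _ _
      linarith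
    have h8 : e ≤ ε * m / 2 := min_le_right _ _
    rw [norm_div, div_le_iff₀ (by linarith)]
    calc ‖f z - L' z‖ ≤ ε * (m / 2) := by linarith
      _ ≤ ε * ‖f z - 1‖ := mul_le_mul_of_nonneg_left h4 hε.le

/-! ## case (I) -/

theorem tm_I_inf {Ω : Set ℂ} {f : ℂ → ℂ} (hA0 : (0 : ℂ) ∈ A) (hf : f ∈ Tm B ∅ C A Ω) :
    (fun z => (f z)⁻¹) ∈ Tm B ∅ C ((fun a => a⁻¹) '' A) Ω := by
  refine ⟨fun z hz => (hf.1 z hz).inv, fun z hz hzB => ?_, fun b hb hbC a ha => ?_⟩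
  · obtain ⟨h1, h2, h3, -⟩ := hf.2.1 z hz hzB
    refine ⟨h1.inv h2, inv_ne_zero h2, ?_, fun L hL => absurd hL (Set.notMem_empty L)⟩
    rw [Ne, inv_eq_one]
    exact h3
  · by_cases ha0 : a = 0
    · exact ⟨0, hA0, by rw [ha0]; exact inv_zero⟩
    · refine ⟨a⁻¹, hf.2.2 b hb hbC a⁻¹ ?_, by simp⟩
      have h1 := ha.inv₀ ha0
      simpa using h1

theorem tm_I_one {Ω : Set ℂ} {f : ℂ → ℂ} (hf : f ∈ Tm B ∅ C A Ω) :
    (fun z => 1 - f z) ∈ Tm B ∅ C ((fun a => 1 - a) '' A) Ω := by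
  refine ⟨fun z hz => (MeromorphicAt.const 1 z).sub (hf.1 z hz), fun z hz hzB => ?_, fun b hb hbC a ha => ?_⟩
  · obtain ⟨h1, h2, h3, -⟩ := hf.2.1 z hz hzB
    refine ⟨analyticAt_const.sub h1, sub_ne_zero.2 (Ne.symm h3), ?_, fun L hL => absurd hL (Set.notMem_empty L)⟩
    intro h4
    exact h2 (by linear_combination -h4)
  · refine ⟨1 - a, hf.2.2 b hb hbC (1 - a) ?_, by simp⟩
    have h1 := ha.const_sub 1
    simpa using h1

/-- a member near a section is moved to a member near `0` -/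
theorem near_I (h : BaseD p B δ W ∅ C A) {s : ℂ → MN 1} (hs : s ∈ Sec ∅) :
    ∃ A' : Set ℂ, BaseD p B δ W ∅ C A' ∧ ∀ ε : ℝ, 0 < ε → ∃ d : ℝ, 0 < d ∧ ∀ (Ω : Set ℂ), ∀ f ∈ Tm B ∅ C A Ω, ∃ g ∈ Tm B ∅ C A' Ω,
      ∀ z ∈ Ω, z ∈ Gd B δ → |z.re| ≤ W → dist (kp (f z)) (s z) ≤ d → ‖g z‖ ≤ ε := by
  have hδ := h.δ_pos
  rw [mem_sec] at hs
  rcases hs with rfl | rfl | rfl | ⟨L', hL', rfl⟩
  · refine ⟨(fun a => a⁻¹) '' A, h.changeA (h.A_fin.image _) ⟨0, h.A_zero, inv_zero⟩ ⟨1, h.A_one, inv_one⟩, fun ε hε => ?_⟩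
    obtain ⟨d, hd, hd'⟩ := Cho.large_of_dist hε
    refine ⟨d, hd, fun Ω f hf => ⟨_, tm_I_inf h.A_zero hf, fun z hz hzG hzW hdist => ?_⟩⟩
    have h1 := hd' _ hdist
    have h3 : 0 < ‖f z‖ := norm_pos_iff.2 (hf.2.1 z hz (gd_notMem hδ hzG)).2.1
    rw [norm_inv, inv_le_iff_one_le_mul₀ h3]
    exact h1
  · refine ⟨A, h, fun ε hε => ?_⟩
    obtain ⟨d, hd, hd'⟩ := Cho.close_of_dist 0 hε
    refine ⟨d, hd, fun Ω f hf => ⟨f, hf, fun z hz hzG hzW hdist => ?_⟩⟩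
    have h1 := hd' (f z) 0 (by rw [norm_zero]) hdist
    rwa [sub_zero] at h1
  · refine ⟨(fun a => 1 - a) '' A, h.changeA (h.A_fin.image _) ⟨1, h.A_one, sub_self 1⟩ ⟨0, h.A_zero, sub_zero 1⟩, fun ε hε => ?_⟩
    obtain ⟨d, hd, hd'⟩ := Cho.close_of_dist 1 hε
    refine ⟨d, hd, fun Ω f hf => ⟨_, tm_I_one hf, fun z hz hzG hzW hdist => ?_⟩⟩
    have h1 := hd' (f z) 1 (by rw [norm_one]) hdist
    rw [norm_sub_rev]
    exact h1
  · exact absurd hL' (Set.notMem_empty _)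

end Pool.Agent.H62.LR
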