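import Pool.Agent.H62.LR.Defs
import Pool.Agent.H62.EF.PrLip

/-!
# LR Kp: the chordal metric

* `kdist`, `kdist_inf`: the chordal distance.
* `close_of_dist`, `large_of_dist`, `dist_le`, `dist_inf_le`: comparison.
-/

set_option autoImplicit false

open Topology Filter Metric

noncomputable section

namespace Pool.Agent.H62.LR.Cho

open Pool.Agent.H36.BP (EN wd fs)
open Pool.Agent.H62.EF (MN pr)

theorem v1_ne (w : ℂ) : v1 w ≠ 0 := by
  intro h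
  have h1 := congrArg (fun x : EN 1 => x 0) h
  simp [v1] at h1

theorem v0_ne : v0 ≠ 0 := by
  intro h
  have h1 := congrArg (fun x : EN 1 => x 1) h
  simp [v0] at h1

theorem norm_v1_sq (w : ℂ) : ‖v1 w‖ ^ 2 = 1 + ‖w‖ ^ 2 := by
  rw [EuclideanSpace.norm_sq_eq, Fin.sum_univ_two]
  simp [v1]

theorem norm_v0_sq : ‖v0‖ ^ 2 = 1 := by
  rw [EuclideanSpace.norm_sq_eq, Fin.sum_univ_two]
  simp [v0]

theorem norm_v1 (w : ℂ) : ‖v1 w‖ = Real.sqrt (1 + ‖w‖ ^ 2) := by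
  rw [← norm_v1_sq, Real.sqrt_sq (norm_nonneg _)]

theorem norm_v0 : ‖v0‖ = 1 := by
  have h1 := norm_v0_sq
  have h2 : ‖v0‖ ^ 2 = 1 ^ 2 := by rw [h1, one_pow]
  exact (pow_left_inj₀ (norm_nonneg _) zero_le_one two_ne_zero).1 h2

theorem wd_v1 (x y : ℂ) : wd (v1 x) (v1 y) = ‖x - y‖ := by
  unfold wd
  have h1 : ‖v1 x‖ ^ 2 * ‖v1 y‖ ^ 2 - ‖(inner ℂ (v1 x) (v1 y) : ℂ)‖ ^ 2 = ‖x - y‖ ^ 2 := by
    rw [norm_v1_sq, norm_v1_sq, PiLp.inner_apply, Fin.sum_univ_two]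
    simp only [v1, RCLike.inner_apply, Matrix.cons_val_zero, Matrix.cons_val_one, map_one, mul_one]
    simp only [Complex.sq_norm, Complex.normSq_apply, Complex.add_re, Complex.add_im, Complex.one_re, Complex.one_im, Complex.mul_re, Complex.mul_im,
      Complex.conj_re, Complex.conj_im, Complex.sub_re, Complex.sub_im]
    ring
  rw [h1, Real.sqrt_sq (norm_nonneg _)]

theorem wd_v0 (x : ℂ) : wd (v1 x) v0 = 1 := by
  unfold wd
  have h1 : ‖v1 x‖ ^ 2 * ‖v0‖ ^ 2 - ‖(inner ℂ (v1 x) v0 : ℂ)‖ ^ 2 = 1 := by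
    rw [norm_v1_sq, norm_v0_sq, PiLp.inner_apply, Fin.sum_univ_two]
    simp only [v1, v0, RCLike.inner_apply, Matrix.cons_val_zero, Matrix.cons_val_one, map_one, mul_one]
    simp
  rw [h1, Real.sqrt_one]

/-- the chordal distance -/
theorem kdist (x y : ℂ) : dist (kp x) (kp y) = Real.sqrt 2 * (‖x - y‖ / (Real.sqrt (1 + ‖x‖ ^ 2) * Real.sqrt (1 + ‖y‖ ^ 2))) := by
  unfold kp
  rw [Pool.Agent.H62.EF.dist_pr (v1_ne x) (v1_ne y), wd_v1, norm_v1, norm_v1]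

theorem kdist_inf (x : ℂ) : dist (kp x) kinf = Real.sqrt 2 * (1 / Real.sqrt (1 + ‖x‖ ^ 2)) := by
  unfold kp kinf
  rw [Pool.Agent.H62.EF.dist_pr (v1_ne x) v0_ne, wd_v0, norm_v1, norm_v0, mul_one]

theorem norm_kp (x : ℂ) : ‖kp x‖ = 1 := Pool.Agent.H62.EF.norm_pr (v1_ne x)

theorem norm_kinf : ‖kinf‖ = 1 := Pool.Agent.H62.EF.norm_pr v0_ne

private theorem one_le_sqrt (x : ℂ) : 1 ≤ Real.sqrt (1 + ‖x‖ ^ 2) := by
  rw [Real.one_le_sqrt]
  nlinarith [norm_nonneg x]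

theorem sqrt_le (x : ℂ) : Real.sqrt (1 + ‖x‖ ^ 2) ≤ 1 + ‖x‖ := by
  rw [Real.sqrt_le_left (by positivity)]
  nlinarith [norm_nonneg x]

theorem kp_inj {x y : ℂ} (h : kp x = kp y) : x = y := by
  have h1 := kdist x y
  rw [h, dist_self] at h1
  have h2 : 0 < Real.sqrt 2 := by positivity
  have h3 := one_le_sqrt x
  have h4 := one_le_sqrt y
  have h5 : ‖x - y‖ / (Real.sqrt (1 + ‖x‖ ^ 2) * Real.sqrt (1 + ‖y‖ ^ 2)) = 0 := by
    rcases mul_eq_zero.1 h1.symm with h6 | h6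
    · exact absurd h6 h2.ne'
    · exact h6
  rcases div_eq_zero_iff.1 h5 with h6 | h6
  · exact sub_eq_zero.1 (norm_eq_zero.1 h6)
  · nlinarith

theorem kp_ne_kinf (x : ℂ) : kp x ≠ kinf := by
  intro h
  have h1 := kdist_inf x
  rw [h, dist_self] at h1
  have h2 : 0 < Real.sqrt 2 := by positivity
  have h3 := one_le_sqrt x
  have h4 : 0 < Real.sqrt 2 * (1 / Real.sqrt (1 + ‖x‖ ^ 2)) := by positivity
  linarith

theorem dist_le (x y : ℂ) : dist (kp x) (kp y) ≤ 2 * ‖x - y‖ := by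
  rw [kdist]
  have h1 : Real.sqrt 2 ≤ 2 := by
    rw [Real.sqrt_le_left (by norm_num)]
    norm_num
  have h3 := one_le_sqrt x
  have h4 := one_le_sqrt y
  have h5 : ‖x - y‖ / (Real.sqrt (1 + ‖x‖ ^ 2) * Real.sqrt (1 + ‖y‖ ^ 2)) ≤ ‖x - y‖ :=
    div_le_self (norm_nonneg _) (by nlinarith)
  exact mul_le_mul h1 h5 (by positivity) (by norm_num)

theorem dist_inf_le {x : ℂ} (hx : x ≠ 0) : dist (kp x) kinf ≤ 2 / ‖x‖ := by
  rw [kdist_inf]
  have h1 : Real.sqrt 2 ≤ 2 := by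
    rw [Real.sqrt_le_left (by norm_num)]
    norm_num
  have hx0 : 0 < ‖x‖ := norm_pos_iff.2 hx
  have h2 : ‖x‖ ≤ Real.sqrt (1 + ‖x‖ ^ 2) := by
    refine Real.le_sqrt_of_sq_le ?_
    linarith
  have h3 : 1 / Real.sqrt (1 + ‖x‖ ^ 2) ≤ 1 / ‖x‖ := one_div_le_one_div_of_le hx0 h2
  calc Real.sqrt 2 * (1 / Real.sqrt (1 + ‖x‖ ^ 2)) ≤ 2 * (1 / ‖x‖) := mul_le_mul h1 h3 (by positivity) (by norm_num)
    _ = 2 / ‖x‖ := by ring

/-- near a point of norm at most `K` in the chordal metric: near -/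
theorem close_of_dist (K : ℝ) {ε : ℝ} (hε : 0 < ε) : ∃ d : ℝ, 0 < d ∧ ∀ x y : ℂ, ‖y‖ ≤ K → dist (kp x) (kp y) ≤ d → ‖x - y‖ ≤ ε := by
  set K' : ℝ := max K 0 with hK'
  have hK'0 : 0 ≤ K' := le_max_right _ _
  set c : ℝ := 1 + K' with hc
  have hc1 : 1 ≤ c := by
    rw [hc]
    linarith
  refine ⟨min (1 / (2 * c)) (ε / (2 * c ^ 2)), lt_min (by positivity) (by positivity), fun x y hy hd => ?_⟩
  have hyK : ‖y‖ ≤ K' := hy.trans (le_max_left _ _)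
  rw [kdist] at hd
  have h2 : 1 ≤ Real.sqrt 2 := by
    rw [Real.one_le_sqrt]
    norm_num
  have h3 := one_le_sqrt x
  have h4 := one_le_sqrt y
  have hsx := sqrt_le x
  have hsy : Real.sqrt (1 + ‖y‖ ^ 2) ≤ c := (sqrt_le y).trans (by rw [hc]; linarith)
  have h5 : ‖x - y‖ / (Real.sqrt (1 + ‖x‖ ^ 2) * Real.sqrt (1 + ‖y‖ ^ 2)) ≤ min (1 / (2 * c)) (ε / (2 * c ^ 2)) := by
    refine le_trans ?_ hd
    exact le_mul_of_one_le_left (by positivity) h2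
  have hx1 : ‖x‖ ≤ ‖x - y‖ + K' := by
    have := norm_add_le (x - y) y
    rw [sub_add_cancel] at this
    linarith
  have hden : 0 < Real.sqrt (1 + ‖x‖ ^ 2) * Real.sqrt (1 + ‖y‖ ^ 2) := by positivity
  have hden' : Real.sqrt (1 + ‖x‖ ^ 2) * Real.sqrt (1 + ‖y‖ ^ 2) ≤ (c + ‖x - y‖) * c :=
    mul_le_mul (hsx.trans (by rw [hc]; linarith)) hsy (by positivity) (by positivity)
  have hcc : 0 < c := by linarith
  have hs : ‖x - y‖ ≤ c := by
    have h6 := h5.trans (min_le_left _ _)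
    rw [div_le_div_iff₀ hden (by positivity)] at h6
    have h7 : ‖x - y‖ * (2 * c) ≤ (c + ‖x - y‖) * c := h6.trans (by rw [one_mul]; exact hden')
    have h8 : ‖x - y‖ * c ≤ c * c := by nlinarith
    exact le_of_mul_le_mul_right h8 hcc
  have h6 := h5.trans (min_le_right _ _)
  rw [div_le_div_iff₀ hden (by positivity)] at h6
  have h7 : ‖x - y‖ * (2 * c ^ 2) ≤ ε * (2 * c ^ 2) := by
    refine h6.trans (mul_le_mul_of_nonneg_left (hden'.trans ?_) hε.le)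
    nlinarith
  exact le_of_mul_le_mul_right h7 (by positivity)

/-- near `∞` in the chordal metric: large -/
theorem large_of_dist {ε : ℝ} (hε : 0 < ε) : ∃ d : ℝ, 0 < d ∧ ∀ x : ℂ, dist (kp x) kinf ≤ d → 1 ≤ ε * ‖x‖ := by
  refine ⟨min (1 / 2) (ε / 2), lt_min (by norm_num) (by positivity), fun x hd => ?_⟩
  rw [kdist_inf] at hd
  have h2 : 1 ≤ Real.sqrt 2 := by
    rw [Real.one_le_sqrt]
    norm_num
  have h3 := one_le_sqrt x
  have h5 : 1 / Real.sqrt (1 + ‖x‖ ^ 2) ≤ min (1 / 2) (ε / 2) := by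
    refine le_trans ?_ hd
    exact le_mul_of_one_le_left (by positivity) h2
  have h6 := h5.trans (min_le_left _ _)
  have h7 := h5.trans (min_le_right _ _)
  rw [div_le_div_iff₀ (by positivity) (by norm_num)] at h6 h7
  have hs := sqrt_le x
  have hx : 1 ≤ ‖x‖ := by linarith
  nlinarith

end Pool.Agent.H62.LR.Cho
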